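import Pool.Agent.H43.AS.AsX
import Pool.Agent.H24.VP.Pos
import Pool.Agent.H24.VP.Nef
import Pool.Agent.H24.VP.Hda2

/-!
# [H20 AB Apg] ABUNDANCE (MP_e49dc9_ag): `T(A,P,G) > 0`

`s`, `t` sections of `G` without common zeros in codimension one, `s / t` transcendental; `P` nef with `T(P,P,A) > 0` for all ample `A`.
* `agg_nn`: `T(A,G,G) ≥ 0` (second differences of the ranks).
* `aag_pos`: `T(A,A,G) > 0`.
* `apg_pos`: `T(A,P,G) > 0` (index theorem).
-/

set_option autoImplicit false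

namespace Pool.Agent.H20.AB

open Pool.Agent.H54.RV Pool.Agent.H83.TU Pool.Agent.H83.TK Pool.Agent.H24.TK Pool.Agent.H43.AS
open Pool.Agent.H24.VP (RR Nf nf_pow nn_eff pos_eff hdg_L hdg_amp pos_amp t_int numz_T chS chi)

variable {k K : Type} [Field k] [Field K] [Algebra k K] {X : Mod k K}
  {T : Cart X → Cart X → Cart X → ℝ} {l : Cart X → ℝ} {c : ℝ} {G : Cart X} {s t : K}

/-- the rank grows with the divisor -/
theorem rk_mono [CharZero k] (hX : IsVar X) (hg : ∃ g, Gen X g) (hA : ∃ A : Cart X, Ample A) (F₀ : IntermediateField k K)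
    (hs : Sec G 1 s) (hs0 : s ≠ 0) (W : Cart X) :
    Module.finrank F₀ (Submodule.span F₀ (secL (W * G⁻¹) 1 : Set K)) ≤
      Module.finrank F₀ (Submodule.span F₀ (secL W 1 : Set K)) := by
  obtain ⟨A, hA⟩ := hA
  have := Pool.Agent.H4.YB.fd_span hX hg hA F₀ W
  have := Pool.Agent.H4.YB.fd_span hX hg hA F₀ (W * G⁻¹)
  let e : K →ₗ[F₀] K := LinearMap.mulLeft F₀ s
  have hinj : Function.Injective e := fun a b hab => mul_left_cancel₀ hs0 hab
  have h1 : (Submodule.span F₀ (secL (W * G⁻¹) 1 : Set K)).map e ≤ Submodule.span F₀ (secL W 1 : Set K) := by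
    rw [Submodule.map_span_le]
    intro a ha
    refine Submodule.subset_span fun x => ?_
    have h2 := (X.O x).mul_mem (hs x) (ha x)
    have e1 : s * G.eq x ^ 1 * (a * (W * G⁻¹).eq x ^ 1) = s * a * W.eq x ^ 1 := by
      rw [pow_one, pow_one, pow_one, mul_eq]
      have h3 : (G⁻¹).eq x = (G.eq x)⁻¹ := rfl
      have := G.ne x
      rw [h3]
      field_simp
    rw [e1] at h2
    exact h2
  calc Module.finrank F₀ (Submodule.span F₀ (secL (W * G⁻¹) 1 : Set K))
      = Module.finrank F₀ ((Submodule.span F₀ (secL (W * G⁻¹) 1 : Set K)).map e) :=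
        (LinearEquiv.finrank_eq (Submodule.equivMapOfInjective e hinj _))
    _ ≤ _ := Submodule.finrank_mono h1

theorem agg_nn [CharZero k] (hX : IsVar X) (hg : ∃ g, Gen X g) (hr : RR T l c)
    (hs : Sec G 1 s) (ht : Sec G 1 t) (hs0 : s ≠ 0) (ht0 : t ≠ 0) (hζ : Transcendental k (s / t)) (hc : Cop G s t)
    {A : Cart X} (hA : Ample A) : 0 ≤ T A G G := by
  obtain ⟨n₁, h1⟩ := hr.ev 1 A hA
  obtain ⟨n₂, h2⟩ := hr.ev G⁻¹ A hA
  obtain ⟨n₃, h3⟩ := hr.ev (G⁻¹ * G⁻¹) A hA
  have key : ∀ n : ℕ, n₁ + n₂ + n₃ ≤ n → T G G G ≤ n * T A G G := by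
    intro n hn
    have a1 := h1 n (by omega)
    have a2 := h2 n (by omega)
    have a3 := h3 n (by omega)
    rw [one_mul] at a1
    have e2 : G⁻¹ * A ^ n = A ^ n * G⁻¹ := mul_comm _ _
    have e3 : G⁻¹ * G⁻¹ * A ^ n = A ^ n * G⁻¹ * G⁻¹ := by
      rw [mul_comm, mul_assoc]
    rw [e2] at a2
    rw [e3] at a3
    have b1 := wd_lb hX hg ⟨A, hA⟩ hs ht hs0 ht0 hζ hc (A ^ n)
    have b1' := wd_ub hX hg ⟨A, hA⟩ hs ht hs0 ht0 hζ (A ^ n)
    have b2 := wd_lb hX hg ⟨A, hA⟩ hs ht hs0 ht0 hζ hc (A ^ n * G⁻¹)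
    have b3 : (Module.finrank (IntermediateField.adjoin k {s / t}) (Submodule.span (IntermediateField.adjoin k {s / t})
        (secL (A ^ n * G⁻¹) 1 : Set K)) : ℝ) ≤ Module.finrank (IntermediateField.adjoin k {s / t})
          (Submodule.span (IntermediateField.adjoin k {s / t}) (secL (A ^ n) 1 : Set K)) := by
      exact_mod_cast rk_mono hX hg ⟨A, hA⟩ (IntermediateField.adjoin k {s / t}) hs hs0 (A ^ n)
    have c1 := hr.chi_sub G (A ^ n)
    have c2 := hr.chi_sub G (A ^ n * G⁻¹)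
    have c3 : chS T l G (A ^ n) - chS T l G (A ^ n * G⁻¹) = n * T A G G - T G G G := by
      unfold chS
      simp only [hr.tri.add, hr.tri.add2, hr.tri.inv, hr.tri.inv2, hr.tri.pow, hr.tri.pow2]
      rw [hr.tri.s12 G A G]
      ring
    linarith
  by_contra hcon
  push Not at hcon
  obtain ⟨n, hn⟩ := exists_nat_gt (- T G G G / - T A G G)
  have h4 := key (n₁ + n₂ + n₃ + n) (by omega)
  have h5 : 0 < - T A G G := by linarith
  rw [div_lt_iff₀ h5] at hn
  push_cast at h4
  have h6 : ((n₁ : ℝ) + n₂ + n₃) * T A G G ≤ 0 :=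
    mul_nonpos_of_nonneg_of_nonpos (by positivity) hcon.le
  nlinarith

theorem aag_pos [CharZero k] [T0Space X.P] (h : Hyp X) (hr : RR T l c)
    (hs : Sec G 1 s) (ht : Sec G 1 t) (hs0 : s ≠ 0) (ht0 : t ≠ 0) (hζ : Transcendental k (s / t))
    {A B : Cart X} (hA : Ample A) (hB : Ample B) : 0 < T A B G := by
  obtain ⟨E, hE⟩ : ∃ E, E = G * prin X s hs0 := ⟨_, rfl⟩
  have hEeq : ∀ x, E.eq x = G.eq x * s := fun x => by rw [hE]; rfl
  have hEe : Effective E := by
    intro x
    rw [hEeq, mul_comm]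
    have := hs x
    rwa [pow_one] at this
  have hT : T A B E = T A B G := by
    have h0 : T A B (prin X s hs0) = 0 := by
      rw [hr.tri.s23, hr.tri.s12]
      exact numz_T h hr (numz_prin s hs0) _ _
    rw [hE, hr.tri.add3, h0, add_zero]
  rw [← hT]
  refine pos_eff h hr hA hB hEe fun hE' => ?_
  have h1 := wd_ub h.var h.gen ⟨A, hA⟩ hs ht hs0 ht0 hζ (1 : Cart X)
  have := Pool.Agent.H4.YB.fd_span h.var h.gen hA (IntermediateField.adjoin k {s / t}) (1 : Cart X)
  have h2 : 0 < Module.finrank (IntermediateField.adjoin k {s / t}) (Submodule.span (IntermediateField.adjoin k {s / t})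
      (secL (1 : Cart X) 1 : Set K)) := by
    rw [Module.finrank_pos_iff_exists_ne_zero]
    refine ⟨⟨1, Submodule.subset_span fun x => ?_⟩, fun h3 => one_ne_zero (congrArg Subtype.val h3)⟩
    have h4 : (1 : K) * (1 : Cart X).eq x ^ 1 = 1 := by
      rw [one_eq, one_pow, mul_one]
    rw [h4]
    exact (X.O x).one_mem
  have h3 : h0 (1 : Cart X) 1 ≤ h0 (1 * G⁻¹) 1 := by
    have e1 : h0 (1 * G⁻¹) 1 = h0 E⁻¹ 1 := by
      have e2 : E⁻¹ = (1 * G⁻¹) * prin X s⁻¹ (inv_ne_zero hs0) := by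
        apply Cart.ext'
        intro x
        rw [one_mul, mul_eq]
        show (E.eq x)⁻¹ = (G.eq x)⁻¹ * s⁻¹
        rw [hEeq, mul_inv]
      rw [e2, Pool.Agent.H41.TK.h0_prin]
    rw [e1]
    have := fd h.var h.gen hA E⁻¹
    refine Submodule.finrank_mono fun f hf x => ?_
    have h4 := hf x
    rw [one_eq, one_pow, mul_one] at h4
    rw [pow_one]
    exact (X.O x).mul_mem h4 (hE' x)
  have h4 : (0 : ℝ) < Module.finrank (IntermediateField.adjoin k {s / t}) (Submodule.span (IntermediateField.adjoin k {s / t})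
      (secL (1 : Cart X) 1 : Set K)) := by exact_mod_cast h2
  have h5 : (h0 (1 : Cart X) 1 : ℝ) ≤ h0 (1 * G⁻¹) 1 := by exact_mod_cast h3
  linarith

theorem apg_pos [CharZero k] [T0Space X.P] (h : Hyp X) (hr : RR T l c) {P : Cart X} (hP : Nf P)
    (hPPA : ∀ A : Cart X, Ample A → 0 < T P P A)
    (hs : Sec G 1 s) (ht : Sec G 1 t) (hs0 : s ≠ 0) (ht0 : t ≠ 0) (hζ : Transcendental k (s / t)) (hc : Cop G s t)
    {A : Cart X} (hA : Ample A) : 0 < T A P G := by
  have h1 : 0 ≤ T A P G := by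
    obtain ⟨E, hE⟩ : ∃ E, E = G * prin X s hs0 := ⟨_, rfl⟩
    have hEe : Effective E := by
      intro x
      have e1 : E.eq x = s * G.eq x := by
        rw [hE]
        exact mul_comm _ _
      rw [e1]
      have := hs x
      rwa [pow_one] at this
    have hT : T P A E = T A P G := by
      have h0 : T P A (prin X s hs0) = 0 := by
        rw [hr.tri.s23, hr.tri.s12]
        exact numz_T h hr (numz_prin s hs0) _ _
      rw [hE, hr.tri.add3, h0, add_zero, hr.tri.s12]
    rw [← hT]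
    exact nn_eff h hr hP hA hEe
  rcases h1.eq_or_lt with h2 | h2
  · exfalso
    have h3 := agg_nn h.var h.gen hr hs ht hs0 ht0 hζ hc hA
    have h4 := aag_pos h hr hs ht hs0 ht0 hζ hA hA
    have h5 := hPPA A hA
    have key : ∀ n : ℕ, T P P A * (2 * n * T A A G) ≤ T A A P ^ 2 := by
      intro n
      have h6 := hdg_L hr.tri (t_int hr ⟨A, hA⟩) (pos_amp h hr hA hA hA) (fun E hE => hdg_amp h hr hA E hE) P
        (G ^ n * A) h5
      have e1 : T (G ^ n * A) (G ^ n * A) A = n ^ 2 * T A G G + 2 * n * T A A G + T A A A := by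
        simp only [hr.tri.add, hr.tri.add2, hr.tri.pow, hr.tri.pow2]
        rw [hr.tri.s23 G G A, hr.tri.s12 G A G, hr.tri.s12 G A A, hr.tri.s23 A G A]
        ring
      have e2 : T P (G ^ n * A) A = T A A P := by
        rw [hr.tri.add2, hr.tri.pow2, hr.tri.s23 P G A, hr.tri.s12 P A G, ← h2, mul_zero, zero_add,
          hr.tri.s12 P A A, hr.tri.s23 A P A]
      rw [e1, e2] at h6
      have h7 : 0 < T A A A := pos_amp h hr hA hA hA
      have h8 : 0 ≤ (n : ℝ) ^ 2 * T A G G := by positivity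
      have h9 : T P P A * (2 * n * T A A G) ≤ T P P A * (n ^ 2 * T A G G + 2 * n * T A A G + T A A A) :=
        mul_le_mul_of_nonneg_left (by linarith) h5.le
      linarith
    obtain ⟨n, hn⟩ := exists_nat_gt (T A A P ^ 2 / (T P P A * T A A G))
    have h6 : 0 < T P P A * T A A G := mul_pos h5 h4
    rw [div_lt_iff₀ h6] at hn
    have h7 := key n
    have h8 : T P P A * (2 * n * T A A G) = 2 * (n * (T P P A * T A A G)) := by ring
    rw [h8] at h7
    have h9 : 0 ≤ (n : ℝ) * (T P P A * T A A G) := by positivity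
    linarith
  · exact h2

end Pool.Agent.H20.AB
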