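import Pool.Agent.H47.YP.Phi
import Pool.Agent.H24.VP.Alg

/-!
# [H20 AB As] ABUNDANCE (MP_e49dc9_ag): (AS) for the surface `Y`, from the counts on the threefold `X`

`X` over `k` with Riemann-Roch; `Y` a surface over `F`, `ψ : Cart X →* Cart Y` the pull-back, `e` the degree of `F` over the field of the pencil,
`G` the class of the pencil.  `hLB`, `hUB`: the bounds from below and above for `h⁰(Y, ψ V)` (the rank of `F H⁰(X,V)`).
`P` nef with `T(P,P,G) = T(P,G,G) = 0`, `U = P ^ r`.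
-/

set_option autoImplicit false

namespace Pool.Agent.H20.AB

open Pool.Agent.H54.RV Pool.Agent.H83.TU Pool.Agent.H83.TK Pool.Agent.H24.VP Pool.Agent.H41.TK Pool.Agent.H47.YP

variable {k K : Type} [Field k] [Field K] [Algebra k K] {X : Mod k K}
  {T : Cart X → Cart X → Cart X → ℝ} {l : Cart X → ℝ} {c : ℝ}
  {F : Type} [Field F] [Algebra F K] {Y : Mod F K} {ψ : Cart X →* Cart Y}

theorem nef_pow {P : Cart X} (hP : ∀ B : Cart X, Ample B → Ample (B * P)) (n : ℕ) :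
    ∀ B : Cart X, Ample B → Ample (B * P ^ n) := by
  induction n with
  | zero =>
    intro B hB
    rwa [pow_zero, mul_one]
  | succ n ih =>
    intro B hB
    rw [pow_succ, ← mul_assoc]
    exact hP _ (ih B hB)

theorem as_of [CharZero F] [T0Space Y.P] (hr : RR T l c) (hY : IsVar Y) (hg : ∃ g, Gen Y g) (htr : Algebra.trdeg F K = 2)
    (hψ : ∀ B, Ample B → Ample (ψ B)) {A P G : Cart X} (hA : Ample A) (hP : ∀ B : Cart X, Ample B → Ample (B * P))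
    (hPPG : T P P G = 0) (hPGG : T P G G = 0) {e : ℕ} (he : 1 ≤ e)
    (hLB : ∀ V : Cart X, h0 V 1 ≤ h0 (V * G⁻¹) 1 + e * h0 (ψ V) 1)
    (hUB : ∀ V : Cart X, Ample V → ∃ C : ℝ, ∃ t₀ : ℕ, ∀ t : ℕ, t₀ ≤ t →
      (e : ℝ) * h0 (ψ (V ^ t)) 1 ≤ t ^ 2 / 2 * T V V G + C * t)
    {k' K' : Type} [Field k'] [Field K'] [Algebra k' K'] [CharZero k'] {C : Mod k' K'} {φ : Cart Y →* Cart C}
    (hC : Cut Y (ψ A) C φ) (r : ℕ) :
    (dg (φ (ψ A)) : ℝ) = T A A G / e ∧ (dg (φ (ψ (P ^ r))) : ℝ) = r * T A P G / e ∧ ∃ M : ℕ, 1 ≤ M ∧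
      ∀ j : ℕ, ∃ m₀ : ℕ, ∀ m ≥ m₀,
      (h0 (ψ A ^ m) 1 : ℝ) + j * M * m * dg (φ (ψ (P ^ r))) ≤ h0 (ψ (P ^ r) ^ (j * M) * ψ A ^ m) 1 := by
  have ht := hr.tri
  have he' : (1 : ℝ) ≤ e := by exact_mod_cast he
  have he0 : (0 : ℝ) < e := by linarith
  have hV : ∀ i : ℕ, Ample (A * (P ^ r) ^ i) := fun i => by
    rw [← pow_mul]
    exact nef_pow hP _ _ hA
  -- the numbers of `V = A + i r P`
  have hVVG : ∀ i : ℕ, T (A * (P ^ r) ^ i) (A * (P ^ r) ^ i) G = T A A G + 2 * i * (r * T A P G) := by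
    intro i
    simp only [ht.add, ht.add2, ht.pow, ht.pow2, hPPG]
    rw [ht.s12 P A G]
    ring
  have hVGG : ∀ i : ℕ, T (A * (P ^ r) ^ i) G G = T A G G := by
    intro i
    simp only [ht.add, ht.pow, hPGG]
    ring
  have hAW : ∀ i : ℕ, Ample (ψ A * ψ (P ^ r) ^ i) := fun i => by
    rw [← map_pow, ← map_mul]
    exact hψ _ (hV i)
  have hub : ∀ i : ℕ, ∃ B : ℝ, ∃ t₀ : ℕ, ∀ t ≥ t₀, (h0 ((ψ A * ψ (P ^ r) ^ i) ^ t) 1 : ℝ) ≤
      (T A A G / (2 * e) + i * (r * T A P G / e)) * t ^ 2 + B * t + B := by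
    intro i
    obtain ⟨B, t₀, h1⟩ := hUB _ (hV i)
    refine ⟨|B|, t₀, fun t ht' => ?_⟩
    have h2 := h1 t ht'
    rw [hVVG] at h2
    have h3 : (ψ A * ψ (P ^ r) ^ i) ^ t = ψ ((A * (P ^ r) ^ i) ^ t) := by
      simp only [map_pow, map_mul]
    rw [h3]
    have h4 : (h0 (ψ ((A * (P ^ r) ^ i) ^ t)) 1 : ℝ) ≤ (t ^ 2 / 2 * (T A A G + 2 * i * (r * T A P G)) + B * t) / e := by
      rw [le_div_iff₀ he0, mul_comm]
      exact h2
    have h5 : (t ^ 2 / 2 * (T A A G + 2 * i * (r * T A P G)) + B * t) / e =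
        (T A A G / (2 * e) + i * (r * T A P G / e)) * t ^ 2 + (B / e) * t := by
      field_simp
    have h6 : B / e ≤ |B| := by
      rw [div_le_iff₀ he0]
      have := le_abs_self B
      have := abs_nonneg B
      nlinarith
    have h7 : (B / e) * t ≤ |B| * t := mul_le_mul_of_nonneg_right h6 (Nat.cast_nonneg t)
    have h8 := abs_nonneg B
    rw [h5] at h4
    linarith
  have hlb : ∀ i : ℕ, ∃ B : ℝ, ∃ t₀ : ℕ, ∀ t ≥ t₀, (T A A G / (2 * e) + i * (r * T A P G / e)) * t ^ 2 -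
      T A G G / (2 * e) * t - B ≤ (h0 ((ψ A * ψ (P ^ r) ^ i) ^ t) 1 : ℝ) := by
    intro i
    obtain ⟨V, hVd⟩ : ∃ V, V = A * (P ^ r) ^ i := ⟨_, rfl⟩
    have hVa := hV i
    have e1 := hVVG i
    have e2 := hVGG i
    rw [← hVd] at hVa e1 e2
    obtain ⟨n1, h1⟩ := hr.ev 1 V hVa
    obtain ⟨n2, h2⟩ := hr.ev G⁻¹ V hVa
    refine ⟨-((T G G G / 6 + l G) / e), n1 + n2, fun t ht' => ?_⟩
    have a1 := h1 t (by omega)
    have a2 := h2 t (by omega)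
    rw [one_mul] at a1
    rw [mul_comm G⁻¹] at a2
    have a3 : (h0 (V ^ t) 1 : ℝ) ≤ h0 (V ^ t * G⁻¹) 1 + e * h0 (ψ (V ^ t)) 1 := by exact_mod_cast hLB (V ^ t)
    have a4 := hr.chi_sub G (V ^ t)
    have a5 : chS T l G (V ^ t) = t ^ 2 / 2 * (T A A G + 2 * i * (r * T A P G)) - t / 2 * T A G G + (T G G G / 6 + l G) := by
      unfold chS
      rw [ht.pow, ht.pow2, ht.pow, e1, e2]
      ring
    have h3 : (ψ A * ψ (P ^ r) ^ i) ^ t = ψ (V ^ t) := by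
      rw [hVd]
      simp only [map_pow, map_mul]
    rw [h3]
    have a6 : (t ^ 2 / 2 * (T A A G + 2 * i * (r * T A P G)) - t / 2 * T A G G + (T G G G / 6 + l G)) / e ≤
        h0 (ψ (V ^ t)) 1 := by
      rw [div_le_iff₀ he0, mul_comm]
      linarith
    refine le_trans (le_of_eq ?_) a6
    field_simp
    ring
  obtain ⟨b1, b2, b3⟩ := asy hY hg htr hAW hC hub hlb
  refine ⟨?_, b2, b3⟩
  rw [b1]
  field_simp

end Pool.Agent.H20.AB
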