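import Mathlib

/-!
# [H20 AB AsE] ABUNDANCE (MP_e49dc9_ag): the numbers at the end of (AS)

`f n j = h⁰(Y, n A + j U)`, `α n² + β n j + δ j² + a n + b j + c` the polynomial of the surface `Y`.  The bounds on the rays `j = i n` come
from the threefold `X`.
-/

set_option autoImplicit false

namespace Pool.Agent.H20.AB

/-- a number which is at most `C / n` for all large `n` is not positive -/
theorem le_zero_of_lin {x C : ℝ} {n₀ : ℕ} (h : ∀ n : ℕ, n₀ ≤ n → x * n ≤ C) : x ≤ 0 := by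
  by_contra hx
  push Not at hx
  obtain ⟨n, hn⟩ := exists_nat_gt (C / x)
  have h1 := h (n + n₀) (by omega)
  rw [div_lt_iff₀ hx] at hn
  push_cast at h1
  have h2 : 0 ≤ x * (n₀ : ℝ) := by positivity
  nlinarith

/-- a number which is at most `C / n` for all large `n` is not positive -/
theorem le_zero_of_quad {x C : ℝ} {n₀ : ℕ} (h : ∀ n : ℕ, n₀ ≤ n → x * n ^ 2 ≤ C * n + C) : x ≤ 0 := by
  refine le_zero_of_lin (C := |C| + |C|) (n₀ := n₀ + 1) fun n hn => ?_
  have h1 := h n (by omega)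
  have hn1 : (1 : ℝ) ≤ n := by exact_mod_cast (show 1 ≤ n by omega)
  have h2 : x * n ^ 2 ≤ (|C| + |C|) * n := by
    have h3 := le_abs_self C
    have h4 : |C| ≤ |C| * n := le_mul_of_one_le_right (abs_nonneg _) hn1
    nlinarith
  have h5 : (x * n) * n ≤ (|C| + |C|) * n := by nlinarith
  exact le_of_mul_le_mul_right h5 (by linarith)

theorem as_num {f : ℕ → ℕ → ℝ} {α β δ a b c t0 t1 t2 : ℝ}
    (hev : ∀ j : ℕ, ∃ n₀ : ℕ, ∀ n : ℕ, n₀ ≤ n → f n j = α * n ^ 2 + β * n * j + δ * j ^ 2 + a * n + b * j + c)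
    (hray : ∀ i : ℕ, ∃ C : ℝ, ∃ n₀ : ℕ, ∀ n : ℕ, n₀ ≤ n →
      |f n (i * n) - (α * n ^ 2 + β * n * (i * n) + δ * (i * n) ^ 2 + a * n + b * (i * n) + c)| ≤ C)
    (hub : ∀ i : ℕ, ∃ C : ℝ, ∃ n₀ : ℕ, ∀ n : ℕ, n₀ ≤ n → f n (i * n) ≤ n ^ 2 / 2 * (t0 + 2 * i * t1) + C * n)
    (hlb : ∀ i : ℕ, ∃ C : ℝ, ∃ n₀ : ℕ, ∀ n : ℕ, n₀ ≤ n →
      n ^ 2 / 2 * (t0 + 2 * i * t1) - n / 2 * t2 - C ≤ f n (i * n)) :
    δ = 0 ∧ 0 ≤ b ∧ ∀ j : ℕ, ∃ n₀ : ℕ, ∀ n : ℕ, n₀ ≤ n → f n 0 + j * n * β ≤ f n j := by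
  -- the leading coefficients on the rays
  have hq : ∀ i : ℕ, α + β * i + δ * i ^ 2 = (t0 + 2 * i * t1) / 2 ∧ 0 ≤ a + b * i + t2 / 2 := by
    intro i
    obtain ⟨C1, n1, h1⟩ := hray i
    obtain ⟨C2, n2, h2⟩ := hub i
    obtain ⟨C3, n3, h3⟩ := hlb i
    have hup : α + β * i + δ * i ^ 2 - (t0 + 2 * i * t1) / 2 ≤ 0 := by
      refine le_zero_of_quad (C := |C2| + |a| + |b| * i + |c| + |C1|) (n₀ := n1 + n2 + n3) fun n hn => ?_
      have a1 := abs_le.1 (h1 n (by omega))
      have a2 := h2 n (by omega)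
      have hn0 : (0 : ℝ) ≤ n := Nat.cast_nonneg n
      have hi0 : (0 : ℝ) ≤ i := Nat.cast_nonneg i
      have b1 : C2 * n ≤ |C2| * n := mul_le_mul_of_nonneg_right (le_abs_self _) hn0
      have b2 : -(a * n) ≤ |a| * n := by
        have := neg_abs_le a
        nlinarith
      have b3 : -(b * (i * n)) ≤ |b| * i * n := by
        have := neg_abs_le b
        have h4 : 0 ≤ (i : ℝ) * n := by positivity
        nlinarith
      have b4 := neg_abs_le c
      have b5 := le_abs_self C1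
      have b6 : 0 ≤ |C2| := abs_nonneg _
      have b7 : 0 ≤ |a| := abs_nonneg _
      have b8 : 0 ≤ |b| * i := by positivity
      have b9 : 0 ≤ (|c| + |C1|) * n := by positivity
      nlinarith
    have hlo : (t0 + 2 * i * t1) / 2 - (α + β * i + δ * i ^ 2) ≤ 0 := by
      refine le_zero_of_quad (C := |t2| + |C3| + |a| + |b| * i + |c| + |C1|) (n₀ := n1 + n2 + n3) fun n hn => ?_
      have a1 := abs_le.1 (h1 n (by omega))
      have a2 := h3 n (by omega)
      have hn0 : (0 : ℝ) ≤ n := Nat.cast_nonneg n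
      have b1 : n / 2 * t2 ≤ |t2| * n := by
        have := le_abs_self t2
        have := abs_nonneg t2
        nlinarith
      have b2 : a * n ≤ |a| * n := mul_le_mul_of_nonneg_right (le_abs_self _) hn0
      have b3 : b * (i * n) ≤ |b| * i * n := by
        have := le_abs_self b
        have h4 : 0 ≤ (i : ℝ) * n := by positivity
        nlinarith
      have b4 := le_abs_self c
      have b5 := le_abs_self C1
      have b6 := le_abs_self C3
      have b9 : 0 ≤ (|c| + |C1| + |C3|) * n := by positivity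
      have b10 : 0 ≤ |t2| := abs_nonneg _
      have b11 : 0 ≤ |a| := abs_nonneg _
      have b12 : 0 ≤ |b| * i := by positivity
      nlinarith
    have heq : α + β * i + δ * i ^ 2 = (t0 + 2 * i * t1) / 2 := by linarith
    refine ⟨heq, ?_⟩
    have h4 : -(a + b * i + t2 / 2) ≤ 0 := by
      refine le_zero_of_lin (C := |C3| + |c| + |C1|) (n₀ := n1 + n2 + n3) fun n hn => ?_
      have a1 := abs_le.1 (h1 n (by omega))
      have a2 := h3 n (by omega)
      have b4 := le_abs_self c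
      have b5 := le_abs_self C1
      have b6 := le_abs_self C3
      have e1 : α * n ^ 2 + β * n * (i * n) + δ * (i * n) ^ 2 = n ^ 2 / 2 * (t0 + 2 * i * t1) := by
        have : α * n ^ 2 + β * n * (i * n) + δ * (i * n) ^ 2 = (n : ℝ) ^ 2 * (α + β * i + δ * i ^ 2) := by ring
        rw [this, heq]
        ring
      nlinarith
    linarith
  have hδ : δ = 0 := by
    have e0 := (hq 0).1
    have e1 := (hq 1).1
    have e2 := (hq 2).1
    push_cast at e0 e1 e2
    linarith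
  have hb : 0 ≤ b := by
    have h1 : -b ≤ 0 := by
      refine le_zero_of_lin (C := a + t2 / 2) (n₀ := 0) fun n _ => ?_
      have := (hq n).2
      linarith
    linarith
  refine ⟨hδ, hb, fun j => ?_⟩
  obtain ⟨n1, h1⟩ := hev j
  obtain ⟨n2, h2⟩ := hev 0
  refine ⟨n1 + n2, fun n hn => ?_⟩
  have a1 := h1 n (by omega)
  have a2 := h2 n (by omega)
  rw [a1, a2, hδ]
  push_cast
  have : 0 ≤ b * (j : ℝ) := by positivity
  nlinarith

end Pool.Agent.H20.AB
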