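import Pool.Agent.H83.TK.BcX

/-!
# [H20 AB Bc2] ABUNDANCE (MP_e49dc9_ag): base change of `X` (over `k`) and of `Y` (over `F`, `k ⊆ F ⊆ K`) at the same time

`k' = k(l)`, `F' = F(l)`, `K' = K(l)`, the same variables.
-/

set_option autoImplicit false

namespace Pool.Agent.H20.AB

open MvPolynomial Pool.Agent.H83.TK

/-- the map of the fields of fractions of the polynomial rings -/
private theorem bc_map (k K σ : Type) [Field k] [Field K] [Algebra k K] (k' K' : Type) [Field k'] [Field K']
    [Algebra (MvPolynomial σ k) k'] [IsFractionRing (MvPolynomial σ k) k']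
    [Algebra (MvPolynomial σ K) K'] [IsFractionRing (MvPolynomial σ K) K'] :
    ∃ φ : k' →+* K', ∀ p : MvPolynomial σ k, φ (algebraMap (MvPolynomial σ k) k' p) =
        algebraMap (MvPolynomial σ K) K' (map (algebraMap k K) p) := by
  have hinj : Function.Injective (map (σ := σ) (algebraMap k K)) :=
    map_injective _ (algebraMap k K).injective
  exact ⟨IsFractionRing.map hinj, fun p => IsLocalization.map_eq _ p⟩

/-- the property `BC` for fields of fractions -/
private theorem bc_frac (k K σ : Type) [Field k] [Field K] [Algebra k K] (k' K' : Type) [Field k'] [Field K']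
    [Algebra (MvPolynomial σ k) k'] [IsFractionRing (MvPolynomial σ k) k']
    [Algebra (MvPolynomial σ K) K'] [IsFractionRing (MvPolynomial σ K) K']
    [Algebra k k'] [Algebra K K'] [Algebra k' K'] [Algebra k K'] [IsScalarTower k K K'] [IsScalarTower k k' K']
    (h1 : ∀ a : k, algebraMap k k' a = algebraMap (MvPolynomial σ k) k' (C a))
    (h2 : ∀ a : K, algebraMap K K' a = algebraMap (MvPolynomial σ K) K' (C a))
    (h3 : ∀ p : MvPolynomial σ k, algebraMap k' K' (algebraMap (MvPolynomial σ k) k' p) =
        algebraMap (MvPolynomial σ K) K' (map (algebraMap k K) p)) :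
    BC k K k' K' (fun i => algebraMap (MvPolynomial σ k) k' (X i)) := by
  have hl : ∀ i : σ, algebraMap k' K' (algebraMap (MvPolynomial σ k) k' (X i)) =
      algebraMap (MvPolynomial σ K) K' (X i) := by
    intro i
    rw [h3, map_X]
  have ha : ∀ f : MvPolynomial σ k, aeval (fun i => algebraMap (MvPolynomial σ k) k' (X i)) f =
      algebraMap (MvPolynomial σ k) k' f := by
    intro f
    have h4 : (aeval (fun i => algebraMap (MvPolynomial σ k) k' (X i)) :
      MvPolynomial σ k →ₐ[k] k').toRingHom = algebraMap (MvPolynomial σ k) k' := by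
      apply MvPolynomial.ringHom_ext
      · intro r
        change aeval _ (C r) = _
        rw [algHom_C, h1]
      · intro i
        change aeval _ (X i) = _
        rw [aeval_X]
    exact congrArg (fun g : MvPolynomial σ k →+* k' => g f) h4
  have hA : ∀ f : MvPolynomial σ K, aeval (fun i =>
      algebraMap k' K' (algebraMap (MvPolynomial σ k) k' (X i))) f =
      algebraMap (MvPolynomial σ K) K' f := by
    intro f
    have h4 : (aeval (fun i => algebraMap k' K' (algebraMap (MvPolynomial σ k) k' (X i))) :
      MvPolynomial σ K →ₐ[K] K').toRingHom = algebraMap (MvPolynomial σ K) K' := by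
      apply MvPolynomial.ringHom_ext
      · intro r
        change aeval _ (C r) = _
        rw [algHom_C, h2]
      · intro i
        change aeval _ (X i) = _
        rw [aeval_X, hl]
    exact congrArg (fun g : MvPolynomial σ K →+* K' => g f) h4
  refine ⟨?_, ?_, ?_⟩
  · intro f g hfg
    rw [hA, hA] at hfg
    exact IsFractionRing.injective _ _ hfg
  · intro c
    obtain ⟨⟨f, g⟩, h4⟩ := IsLocalization.surj (nonZeroDivisors (MvPolynomial σ k)) c
    refine ⟨f, g, nonZeroDivisors.ne_zero g.2, ?_⟩
    rw [ha, ha]
    exact h4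
  · intro c
    obtain ⟨⟨f, g⟩, h4⟩ := IsLocalization.surj (nonZeroDivisors (MvPolynomial σ K)) c
    refine ⟨f, g, nonZeroDivisors.ne_zero g.2, ?_⟩
    rw [hA, hA]
    exact h4

theorem exists_bc2 (k F K σ : Type) [Field k] [Field F] [Field K] [Algebra k F] [Algebra F K] [Algebra k K]
    [IsScalarTower k F K] :
    ∃ (k' F' K' : Type) (_ : Field k') (_ : Field F') (_ : Field K') (_ : Algebra k k') (_ : Algebra F F')
      (_ : Algebra K K') (_ : Algebra k' F') (_ : Algebra F' K') (_ : Algebra k' K') (_ : Algebra k K')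
      (_ : Algebra F K') (_ : Algebra k F') (_ : IsScalarTower k K K') (_ : IsScalarTower k k' K')
      (_ : IsScalarTower F K K') (_ : IsScalarTower F F' K') (_ : IsScalarTower k' F' K') (_ : IsScalarTower k F F')
      (_ : IsScalarTower k k' F') (l : σ → k'), BC k K k' K' l ∧ BC F K F' K' (fun i => algebraMap k' F' (l i)) := by
  obtain ⟨k', ik, ak, fk⟩ : ∃ (k' : Type) (_ : Field k') (_ : Algebra (MvPolynomial σ k) k'),
    IsFractionRing (MvPolynomial σ k) k' := ⟨FractionRing (MvPolynomial σ k), inferInstance,
    inferInstance, inferInstance⟩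
  obtain ⟨F', iF, aF, fF⟩ : ∃ (F' : Type) (_ : Field F') (_ : Algebra (MvPolynomial σ F) F'),
    IsFractionRing (MvPolynomial σ F) F' := ⟨FractionRing (MvPolynomial σ F), inferInstance,
    inferInstance, inferInstance⟩
  obtain ⟨K', iK, aK, fK⟩ : ∃ (K' : Type) (_ : Field K') (_ : Algebra (MvPolynomial σ K) K'),
    IsFractionRing (MvPolynomial σ K) K' := ⟨FractionRing (MvPolynomial σ K), inferInstance,
    inferInstance, inferInstance⟩
  obtain ⟨φ, hφ⟩ := bc_map k F σ k' F'
  obtain ⟨ψ, hψ⟩ := bc_map F K σ F' K'
  let i1 : Algebra k' F' := φ.toAlgebra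
  let i2 : Algebra F' K' := ψ.toAlgebra
  let i3 : Algebra k' K' := (ψ.comp φ).toAlgebra
  let i4 : Algebra k k' := ((algebraMap (MvPolynomial σ k) k').comp C).toAlgebra
  let i5 : Algebra F F' := ((algebraMap (MvPolynomial σ F) F').comp C).toAlgebra
  let i6 : Algebra K K' := ((algebraMap (MvPolynomial σ K) K').comp C).toAlgebra
  let i7 : Algebra k K' := ((algebraMap K K').comp (algebraMap k K)).toAlgebra
  let i8 : Algebra F K' := ((algebraMap K K').comp (algebraMap F K)).toAlgebra
  let i9 : Algebra k F' := ((algebraMap F F').comp (algebraMap k F)).toAlgebra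
  have t1 : IsScalarTower k K K' := IsScalarTower.of_algebraMap_eq fun _ => rfl
  have e1 : ∀ x : k, algebraMap k' K' (algebraMap k k' x) = algebraMap K K' (algebraMap k K x) := fun x => by
    change ψ (φ (algebraMap (MvPolynomial σ k) k' (C x))) = algebraMap (MvPolynomial σ K) K' (C (algebraMap k K x))
    rw [hφ, map_C, hψ, map_C, ← IsScalarTower.algebraMap_apply k F K]
  have t2 : IsScalarTower k k' K' := IsScalarTower.of_algebraMap_eq fun x => (e1 x).symm
  have t3 : IsScalarTower F K K' := IsScalarTower.of_algebraMap_eq fun _ => rfl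
  have t4 : IsScalarTower F F' K' := IsScalarTower.of_algebraMap_eq fun x => by
    change algebraMap (MvPolynomial σ K) K' (C (algebraMap F K x)) = ψ (algebraMap (MvPolynomial σ F) F' (C x))
    rw [hψ, map_C]
  have t5 : IsScalarTower k' F' K' := IsScalarTower.of_algebraMap_eq fun _ => rfl
  have t6 : IsScalarTower k F F' := IsScalarTower.of_algebraMap_eq fun _ => rfl
  have t7 : IsScalarTower k k' F' := IsScalarTower.of_algebraMap_eq fun x => by
    change algebraMap (MvPolynomial σ F) F' (C (algebraMap k F x)) = φ (algebraMap (MvPolynomial σ k) k' (C x))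
    rw [hφ, map_C]
  refine ⟨k', F', K', ik, iF, iK, i4, i5, i6, i1, i2, i3, i7, i8, i9, t1, t2, t3, t4, t5, t6, t7,
    fun i => algebraMap (MvPolynomial σ k) k' (X i), ?_, ?_⟩
  · refine bc_frac k K σ k' K' (fun _ => rfl) (fun _ => rfl) fun p => ?_
    change ψ (φ (algebraMap (MvPolynomial σ k) k' p)) = _
    rw [hφ, hψ, map_map, ← IsScalarTower.algebraMap_eq k F K]
  · have hl : (fun i => algebraMap k' F' (algebraMap (MvPolynomial σ k) k' (X i))) =
        fun i : σ => algebraMap (MvPolynomial σ F) F' (X i) := by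
      funext i
      change φ _ = _
      rw [hφ, map_X]
    rw [hl]
    exact bc_frac F K σ F' K' (fun _ => rfl) (fun _ => rfl) fun p => hψ p

end Pool.Agent.H20.AB
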