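import Pool.Agent.H83.AY.Hor
import Pool.Agent.H24.AB.Kill
import Pool.Agent.H24.TK.Frm

/-!
# [H20 AB Cl] ABUNDANCE (MP_e49dc9_ag): sections on `Y` and sections on `X`; rigidity

`F` = the quotients of the sections of the multiples of `P`.
* `cl`: a section of the pull-back of `V` to `Y` becomes a section of `n P + V` on `X` after multiplication by a section of `n P`.
* `rig`: the sections of all `j W + E` on `Y`, `W = r P + div τ`, are in `F θ`.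
-/

set_option autoImplicit false

namespace Pool.Agent.H20.AB

open Pool.Agent.H54.RV Pool.Agent.H83.TU Pool.Agent.H83.TK Pool.Agent.H24.TK Pool.Agent.H24.AB Pool.Agent.H83.AY

variable {k F K : Type} [Field k] [Field F] [Field K] [Algebra k K] [Algebra F K] {X : Mod k K} {Y : Mod F K}
  {c : Y.P → X.P} {P : Cart X}

theorem cl (hX : IsVar X) (hgX : ∃ g, Gen X g) (hu : ∀ x, UniqueFactorizationMonoid (X.O x)) (hY : IsVar Y)
    (hgY : ∃ g, Gen Y g) (hc : Ctr X Y c)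
    (hq : ∀ x : F, ∃ (m : ℕ) (a b : K), Sec (P ^ m) 1 a ∧ Sec (P ^ m) 1 b ∧ b ≠ 0 ∧ algebraMap F K x * b = a)
    {V : Cart X} {V' : Cart Y} (hV : ∀ y, V'.eq y = V.eq (c y)) {g : K} (hg : Sec V' 1 g) :
    ∃ (n : ℕ) (s : K), Sec (P ^ n) 1 s ∧ s ≠ 0 ∧ Sec (P ^ n * V) 1 (s * g) := by
  have hK : KlS X P (fun n s => s ≠ 0 ∧ Sec (P ^ n) 1 s) :=
    { one := ⟨one_ne_zero, fun x => by
        rw [pow_zero, one_mul]
        show (1 : Cart X).eq x ^ 1 ∈ X.O x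
        rw [pow_one]
        exact (X.O x).one_mem⟩
      mul := fun n m s s' h h' => ⟨mul_ne_zero h.1 h'.1, by
        rw [pow_add]
        exact sec_mul' _ _ _ _ h.2 h'.2⟩
      sec := fun n s h x => by
        have h1 := h.2 x
        rwa [pow_one, pow_eq] at h1
      ne := fun n s h => h.1 }
  obtain ⟨n, s, ⟨hs0, hs⟩, h1⟩ := kill hX hgX hu hK (B := V) (g := g) (fun p hp => by
    by_cases hF : ∀ a : F, algebraMap F K a ∈ X.O p.η
    · exfalso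
      obtain ⟨Q, hQ, hQc⟩ := hor hX hgX hY hgY hc p hF
      have h2 := hg Q.η
      rw [pow_one, hV, hQc, hQ] at h2
      exact hp h2
    · push Not at hF
      obtain ⟨x, hx⟩ := hF
      obtain ⟨m, a, b, ha, hb, hb0, hab⟩ := hq x
      refine ⟨m, b, ⟨hb0, hb⟩, fun hun => hx ?_⟩
      have h2 := ha p.η
      rw [pow_one, pow_eq, ← hab] at h2
      have h3 := (X.O p.η).mul_mem h2 hun.2.2
      have h4 := P.ne p.η
      have h5 : algebraMap F K x * b * P.eq p.η ^ m * (b * P.eq p.η ^ m)⁻¹ = algebraMap F K x := by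
        have h6 : P.eq p.η ^ m ≠ 0 := pow_ne_zero _ h4
        field_simp
      rwa [h5] at h3)
  refine ⟨n, s, hs, hs0, fun x => ?_⟩
  have h2 := h1 x
  rwa [pow_one, mul_eq, pow_eq]

/-- **rigidity** -/
theorem rig (hX : IsVar X) (hgX : ∃ g, Gen X g) (hu : ∀ x, UniqueFactorizationMonoid (X.O x)) (hY : IsVar Y)
    (hgY : ∃ g, Gen Y g) (hc : Ctr X Y c)
    (hq : ∀ x : F, ∃ (m : ℕ) (a b : K), Sec (P ^ m) 1 a ∧ Sec (P ^ m) 1 b ∧ b ≠ 0 ∧ algebraMap F K x * b = a)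
    (hq' : ∀ (m : ℕ) (a b : K), Sec (P ^ m) 1 a → Sec (P ^ m) 1 b → b ≠ 0 → ∃ x : F, algebraMap F K x * b = a)
    {E : Cart X} {m : ℕ} {ψ₀ b₀ : K} (hψ : Sec (P ^ m * E⁻¹) 1 ψ₀) (hψ0 : ψ₀ ≠ 0) (hb : Sec (P ^ m) 1 b₀) (hb0 : b₀ ≠ 0)
    {r : ℕ} {τ : K} (hτ : Sec (P ^ r) 1 τ) (hτ0 : τ ≠ 0) (j : ℕ) {V' : Cart Y}
    (hV : ∀ y, V'.eq y = (P ^ (r * j) * E).eq (c y)) {f : K} (hf : Sec V' 1 (f * τ ^ j)) :
    ∃ x : F, f = algebraMap F K x * (b₀ / ψ₀) := by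
  obtain ⟨n, s, hs, hs0, h1⟩ := cl hX hgX hu hY hgY hc hq hV hf
  have h2 : Sec (P ^ (n + r * j + m)) 1 (s * (f * τ ^ j) * ψ₀) := by
    have h3 := sec_mul' _ _ _ _ h1 hψ
    have h4 : P ^ n * (P ^ (r * j) * E) * (P ^ m * E⁻¹) = P ^ (n + r * j + m) := by
      rw [pow_add, pow_add]
      have : P ^ n * (P ^ (r * j) * E) * (P ^ m * E⁻¹) = P ^ n * P ^ (r * j) * P ^ m * (E * E⁻¹) := by
        simp only [mul_assoc, mul_comm, mul_left_comm]
      rw [this, mul_inv_cancel, mul_one]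
    rwa [h4] at h3
  have hτj : Sec (P ^ (r * j)) 1 (τ ^ j) := by
    rw [pow_mul]
    intro x
    have h3 := (X.O x).pow_mem (hτ x) j
    rwa [pow_one, mul_pow, ← pow_eq, ← pow_one ((P ^ r) ^ j |>.eq x)] at h3
  have h5 : Sec (P ^ (n + r * j + m)) 1 (s * τ ^ j * b₀) := by
    rw [pow_add, pow_add]
    exact sec_mul' _ _ _ _ (sec_mul' _ _ _ _ hs hτj) hb
  obtain ⟨x, hx⟩ := hq' _ _ _ h2 h5 (mul_ne_zero (mul_ne_zero hs0 (pow_ne_zero _ hτ0)) hb0)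
  refine ⟨x, ?_⟩
  have h6 : τ ^ j ≠ 0 := pow_ne_zero _ hτ0
  have h7 : s * τ ^ j * (algebraMap F K x * b₀) = s * τ ^ j * (f * ψ₀) := by
    rw [show s * τ ^ j * (algebraMap F K x * b₀) = algebraMap F K x * (s * τ ^ j * b₀) by ring, hx]
    ring
  have h8 := mul_left_cancel₀ (mul_ne_zero hs0 h6) h7
  rw [← mul_div_assoc, h8, mul_div_assoc, div_self hψ0, mul_one]

end Pool.Agent.H20.AB
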