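import Pool.Agent.H24.TK.Frm
import Pool.Agent.H83.TK.GsB

/-!
# [H20 AB Lsy] ABUNDANCE (MP_e49dc9_ag): a frame is a linear system (on `X` over `k` and on `Y` over `F`)
-/

set_option autoImplicit false

namespace Pool.Agent.H20.AB

open Algebra Pool.Agent.H54.RV Pool.Agent.H83.TU Pool.Agent.H83.TK Pool.Agent.H24.TK

variable {F K : Type} [Field F] [Field K] [Algebra F K] {Y : Mod F K} {H : Cart Y}

/-- the sections of a frame, with the index type `Option σ` -/
def opt {r : ℕ} (t : Fin (r + 1) → K) : Option (Fin r) → K := fun i => t ((finSuccEquiv r).symm i)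

omit [Field K] in
theorem opt_surj {r : ℕ} (t : Fin (r + 1) → K) (j : Fin (r + 1)) : ∃ i, opt t i = t j :=
  ⟨finSuccEquiv r j, by unfold opt; rw [Equiv.symm_apply_apply]⟩

theorem opt_lsys {r : ℕ} {t : Fin (r + 1) → K} (hF : Fr H (r + 1) t) (hne : ∃ j, t j ≠ 0)
    (halg : ∀ j, t j ≠ 0 → Algebra.IsAlgebraic (Algebra.adjoin F (Set.range fun i => t i / t j)) K)
    (htr : Algebra.trdeg F K ≠ 0) : LSys Y H (opt t) where
  sec i := hF.sec _
  free x := by
    obtain ⟨j, hj⟩ := hF.cov x
    obtain ⟨i, hi⟩ := opt_surj t j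
    refine ⟨i, ?_⟩
    rw [hi]
    have h1 : Un (Y.O x) (t j * H.eq x ^ 1) := hj
    rwa [pow_one] at h1
  tr := by
    obtain ⟨j, hj⟩ := hne
    by_contra hcon
    push Not at hcon
    apply htr
    have h1 : ∀ i, IsAlgebraic F (t i / t j) := by
      intro i
      obtain ⟨i', hi'⟩ := opt_surj t i
      obtain ⟨j', hj'⟩ := opt_surj t j
      by_contra h2
      have h3 := hcon i' j' (by rw [hj']; exact hj)
      rw [hi', hj'] at h3
      exact h3 h2
    have h2 := halg j hj
    have h3 : Algebra.IsAlgebraic F (Algebra.adjoin F (Set.range fun i => t i / t j)) := by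
      refine (Subalgebra.isAlgebraic_iff _).1 (Algebra.isAlgebraic_adjoin_iff.2 ?_)
      rintro _ ⟨i, rfl⟩
      exact h1 i
    have h4 : Algebra.IsAlgebraic F K := Algebra.IsAlgebraic.trans F (Algebra.adjoin F (Set.range fun i => t i / t j)) K
    exact trdeg_eq_zero_iff.2 h4

end Pool.Agent.H20.AB
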