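import Pool.Agent.H24.TK.Fin
import Pool.Agent.H20.AB.Lsy
import Pool.Agent.H83.TK.PicM

/-!
# [H20 AB FrA] ABUNDANCE (MP_e49dc9_ag): the function field is algebraic over the quotients of a frame

* `fr_alg`: `K` is algebraic over `k[t i / t j]`, `t` a frame.
* `fr_sys`: a frame gives a linear system without base points, free without the first section.
-/

set_option autoImplicit false

namespace Pool.Agent.H20.AB

open Pool.Agent.H54.RV Pool.Agent.H83.TU Pool.Agent.H83.TK Pool.Agent.H24.TK Polynomial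

variable {k K : Type} [Field k] [Field K] [Algebra k K] {X : Mod k K} {H : Cart X} {r : ℕ} {t : Fin r → K}

theorem fr_alg [CharZero k] (hX : IsVar X) (hg : ∃ g, Gen X g) (hF : Fr H r t) {j : Fin r} (hj : t j ≠ 0) (b : K) :
    IsAlgebraic (Algebra.adjoin k (Set.range fun i => t i / t j)) b := by
  obtain ⟨A, hA⟩ : ∃ A, A = Algebra.adjoin k (Set.range fun i => t i / t j) := ⟨_, rfl⟩
  rw [← hA]
  -- the evaluation
  let ev : K[X] →+* K := Polynomial.evalRingHom (t j)⁻¹
  have hev : ∀ n (c : K), ev (monomial n c) = c / t j ^ n := by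
    intro n c
    show Polynomial.eval (t j)⁻¹ (monomial n c) = _
    rw [eval_monomial, inv_pow, div_eq_mul_inv]
  have hmem : ∀ p ∈ AA k t, ev p ∈ A := by
    intro p hp
    unfold AA at hp
    induction hp using Algebra.adjoin_induction with
    | mem x hx =>
      obtain ⟨i, rfl⟩ := hx
      change ev (monomial 1 (t i)) ∈ A
      rw [hev, pow_one, hA]
      exact Algebra.subset_adjoin ⟨i, rfl⟩
    | algebraMap c =>
      have h1 : ev (algebraMap k K[X] c) = algebraMap k K c := by
        show Polynomial.eval (t j)⁻¹ (C (algebraMap k K c)) = _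
        rw [eval_C]
      rw [h1]
      exact A.algebraMap_mem c
    | add x y _ _ hx hy =>
      rw [map_add]
      exact A.add_mem hx hy
    | mul x y _ _ hx hy =>
      rw [map_mul]
      exact A.mul_mem hx hy
  let φ : AA k t →+* A := (ev.comp (AA k t).val.toRingHom).codRestrict A fun p => hmem p.1 p.2
  have hint : ∀ n (c : K), Sec H n c → IsAlgebraic A (c / t j ^ n) := by
    intro n c hc
    have h1 := int_sec hX hg hF n c hc
    have h2 : IsIntegral A (ev (monomial n c)) := by
      refine IsIntegral.map_of_comp_eq φ ev ?_ h1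
      exact RingHom.ext fun p => rfl
    rw [hev] at h2
    exact h2.isAlgebraic
  have hne : (nz H 1 (t j)).Nonempty := by
    obtain ⟨g, hg⟩ := hg
    refine ⟨g, mul_ne_zero hj (pow_ne_zero _ (H.ne g)), ?_, ?_⟩
    · rw [hg.top]; exact Algebra.mem_top
    · rw [hg.top]; exact Algebra.mem_top
  have hsec : ∀ a ∈ X.sec (nz H 1 (t j)), IsAlgebraic A a := by
    intro a ha
    obtain ⟨N, hN⟩ := ext_sec hX H 1 1 (t j) a (hF.sec j) (fun y hy => by
      rw [one_eq, mul_one]
      exact (mem_sec _ a).1 ha y hy)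
    have h1 : Sec H N (t j ^ N * a) := fun y => by
      have h1 := hN N le_rfl y
      rwa [one_eq, mul_one, pow_one] at h1
    have h2 := hint N _ h1
    rwa [mul_comm, mul_div_assoc, div_self (pow_ne_zero _ hj), mul_one] at h2
  obtain ⟨s, hs, hs0, hbs⟩ := Pool.Agent.H20.TU.sec_frac hX hg _ (hF.aff j) hne b
  have h1 := (hsec _ hbs).mul (hsec _ hs).inv
  rwa [mul_assoc, mul_inv_cancel₀ hs0, mul_one] at h1

theorem dup_range {s : Option (Fin r) → K} {a : K} :
    (Set.range fun o => dupS s o / a) = Set.range fun o => s o / a := by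
  ext x
  constructor
  · rintro ⟨o, rfl⟩
    cases o with
    | none => exact ⟨none, rfl⟩
    | some o => exact ⟨o, rfl⟩
  · rintro ⟨o, rfl⟩
    exact ⟨some o, rfl⟩

theorem opt_range {t : Fin (r + 1) → K} {a : K} :
    (Set.range fun o => opt t o / a) = Set.range fun i => t i / a := by
  ext x
  constructor
  · rintro ⟨o, rfl⟩
    exact ⟨_, rfl⟩
  · rintro ⟨i, rfl⟩
    obtain ⟨o, ho⟩ := opt_surj t i
    exact ⟨o, by simp only [ho]⟩

/-- a frame as a linear system -/
theorem fr_sys [CharZero k] (hX : IsVar X) (hg : ∃ g, Gen X g) {t : Fin (r + 1) → K} (hF : Fr H (r + 1) t)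
    (htr : Algebra.trdeg k K ≠ 0) :
    LSys X H (dupS (opt t)) ∧ (∀ x, ∃ j, Un (X.O x) (dupS (opt t) (some j) * H.eq x)) ∧
      (∃ j, dupS (opt t) j ≠ 0) ∧
      ∀ j, dupS (opt t) j ≠ 0 → ∀ b : K,
        IsAlgebraic (Algebra.adjoin k (Set.range fun o => dupS (opt t) o / dupS (opt t) j)) b := by
  have h1 : LSys X H (opt t) := opt_lsys hF (hF.exists_ne hX) (fun j hj => ⟨fun b => fr_alg hX hg hF hj b⟩) htr
  have h2 : ∀ j, ∃ i, dupS (opt t) j = t i := by
    intro j
    cases j with
    | none => exact ⟨_, rfl⟩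
    | some j => exact ⟨_, rfl⟩
  refine ⟨lsys_dup h1, fun x => dup_free h1 x, ?_, fun j hj b => ?_⟩
  · obtain ⟨i, hi⟩ := hF.exists_ne hX
    obtain ⟨o, ho⟩ := opt_surj t i
    exact ⟨some o, by
      show opt t o ≠ 0
      rwa [ho]⟩
  · obtain ⟨i, hi⟩ := h2 j
    rw [hi] at hj ⊢
    rw [dup_range, opt_range]
    exact fr_alg hX hg hF hj b

end Pool.Agent.H20.AB
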