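import Pool.Agent.H20.AB.Gro
import Pool.Agent.H20.AB.Apg
import Pool.Agent.H60.AP.Asy
import Pool.Agent.H59.KI.Ki
import Pool.Agent.H39.KN.Fin3

/-!
# [H20 AB Fin] ABUNDANCE (MP_e49dc9_ag)

`P` nef on a smooth threefold with torsion canonical class, `P ^ 3 = 0`, `P ^ 2 ≠ 0`, `c₂ P > 0`: `h0 (n P)` grows quadratically.

* `asm_false`: the contradiction for one `P`.
* `gro_all`: all `P`.
* `c_full`: THEOREM C without the hypothesis on the growth.
-/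

set_option autoImplicit false

namespace Pool.Agent.H20.AB

open Pool.Agent.H54.RV Pool.Agent.H83.TU Pool.Agent.H83.TK Pool.Agent.H24.TK Pool.Agent.H41.TK
  Pool.Agent.H83.AY Pool.Agent.H47.YP Pool.Agent.H4.YB Pool.Agent.H43.WR Pool.Agent.H43.AS Pool.Agent.H32.NY
open Pool.Agent.H24.VP (RR nf_pow numz_T)

variable {k K : Type} [Field k] [Field K] [Algebra k K] {X : Mod k K}
  {T : Cart X → Cart X → Cart X → ℝ} {l : Cart X → ℝ} {c : ℝ}

theorem alg_one {F : Type} [Field F] [Algebra k F] (htr : Algebra.trdeg k F = 1) {ζ : F} (hζ : Transcendental k ζ) (c : F) :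
    IsAlgebraic (Algebra.adjoin k {ζ}) c := by
  by_contra hc
  have h1 : AlgebraicIndependent k (fun _ : Unit => ζ) := by
    rw [algebraicIndependent_unique_type_iff]
    exact hζ
  have h2 : Transcendental (Algebra.adjoin k (Set.range (fun _ : Unit => ζ))) c := by
    rw [Set.range_const]
    exact hc
  have h3 := (h1.option_iff_transcendental c).2 h2
  have h4 := h3.cardinalMk_le_trdeg
  rw [htr] at h4
  have h5 : Cardinal.mk (Option Unit) = 2 := by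
    rw [Cardinal.mk_option, Cardinal.mk_unit]
    norm_num
  rw [h5] at h4
  exact absurd h4 (not_le.2 Cardinal.one_lt_two)

theorem asm_false [CharZero k] [IsAlgClosed k] [T0Space X.P] (h : Hyp X) (hr : RR T l c)
    {J : K → K → K → K} {κ : Cart X} (hJ : Jac X J κ) (hκ : NumZ κ) (htor : Pool.Agent.H39.KN.TorC κ)
    {P : Cart X} (hP : ∀ B : Cart X, Ample B → Ample (B * P)) (h3 : T P P P = 0)
    (hPP : ∀ A : Cart X, Ample A → 0 < T P P A) (hl : 0 < l P)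
    (hng : ¬ ∃ c₀ : ℝ, 0 < c₀ ∧ ∃ n₀ : ℕ, ∀ n : ℕ, n₀ ≤ n → c₀ * (n : ℝ) ^ 2 ≤ h0 (P ^ n) 1) : False := by
  obtain ⟨t₀, θ, ht₀, hθ0, hθ⟩ := htor
  obtain ⟨F, G, s, t, hF, hF', htrF, hs, ht, hs0, ht0, hζ, hc, hPPG, hPGG, hle, hfd⟩ :=
    Pool.Agent.H59.KI.ki h hr hP h3 hPP hl hng
  have hX := h.var
  have hg := h.gen
  obtain ⟨g, hgg⟩ := hg
  have hg : ∃ g, Gen X g := ⟨g, hgg⟩
  have htr : Algebra.trdeg F K = 2 := by
    have h1 : Algebra.trdeg k K = (2 : ℕ) + 1 := by rw [h.tr]; norm_num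
    have h2 := trdeg_y h1 htrF
    rw [h2]
    norm_num
  have hcF : CharZero F := char_y
  have hT0 : T0Space (yM X F).P := t0_y hX hg
  have hY : IsVar (yM X F) := isVar_y hX hg
  have hgY : ∃ g, Gen (yM X F) g := gen_y hX hg
  obtain ⟨A₀, hA₀⟩ := h.amp
  -- the generic point
  have hπ : ∀ y, Gen (yM X F) y → Gen X (piY y) := by
    intro y hy
    have h1 := sp_x hX hg (hy.spec (yg hgg : YP X F))
    have h2 : piY y = g := (Specializes.antisymm h1 (hgg.spec _)).eq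
    rw [h2]
    exact hgg
  -- `ζ`
  obtain ⟨ζ, hζd⟩ : ∃ ζ : F, (ζ : K) = s / t :=
    ⟨⟨s / t, hle (IntermediateField.mem_adjoin_simple_self k _)⟩, rfl⟩
  have hζt : Transcendental k ζ := by
    have h1 : algebraMap F K ζ = s / t := hζd
    rw [← h1] at hζ
    exact (transcendental_algebraMap_iff (algebraMap F K).injective).1 hζ
  have hFa : ∀ c : F, IsAlgebraic (Algebra.adjoin k {ζ}) c := alg_one htrF hζt
  refine Pool.Agent.H60.AP.asm_core (Y := yM X F) (π := piY) (ψ := psi hX hg) h hr ?_ hJ ht₀ hθ0 ?_ (fun B hB => (hκ B hB).1)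
    (fun B hB => (hκ B hB).2) (fun U V => numz_T h hr hκ U V) hP h3 hPP hl hng hY hgY nml_y ctr_y
    (fun D y => psi_eq hX hg D y) hπ htr (fun D hD => psi_ample hX hg hD) (fun H r t hf => fr_y hX hg hf) hF hF'
    hζt hFa ?_
  · exact fg_of_gen hX hg
  · intro x
    have h1 := hθ x
    rwa [pow_eq] at h1
  · rintro W A k' K' _ _ _ _ C φ ⟨n, hn, rfl⟩ hA hC
    have hAW : ∀ i : ℕ, Ample (A * (P ^ n) ^ i) := fun i => by
      rw [← pow_mul]
      exact nf_pow hA hP _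
    have htD : ∀ V : Cart (yM X F), h0 (V * psi hX hg κ⁻¹ ^ t₀) 1 = h0 V 1 := by
      refine Pool.Agent.H60.AP.tor_h0 (inv_ne_zero hθ0) fun y => ?_
      have h1 := un_inv (hθ (piY y))
      have h2 : (θ * (κ ^ t₀).eq (piY y))⁻¹ = θ⁻¹ * (psi hX hg κ⁻¹ : Cart (yM X F)).eq y ^ t₀ := by
        rw [psi_eq, pow_eq]
        show _ = θ⁻¹ * ((κ.eq (piY y))⁻¹) ^ t₀
        rw [mul_inv, inv_pow]
      rw [h2] at h1
      exact pi_un' y h1
    have h1 := as_X (W := P ^ n) hX hg hY hgY htr (ov_y hX hg) (fun D hD => psi_ample hX hg hD) hs ht hs0 ht0 hζ hc hle hr hAW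
      (by rw [hr.tri.pow, hr.tri.pow2, hPPG, mul_zero, mul_zero])
      (by
        rw [hr.tri.pow]
        exact mul_nonpos_of_nonneg_of_nonpos (Nat.cast_nonneg n) hPGG) rfl ht₀ htD hC
    obtain ⟨-, b2, -, M, hM, b3⟩ := h1
    refine ⟨?_, M, hM, b3⟩
    have h4 : (0 : ℝ) < dg (φ (psi hX hg (P ^ n))) := by
      rw [b2]
      have h5 := apg_pos h hr hP hPP hs ht hs0 ht0 hζ hc hA
      have h6 : (0 : ℝ) < Module.finrank (IntermediateField.adjoin k {s / t}) (IntermediateField.extendScalars hle) := by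
        exact_mod_cast Module.finrank_pos
      have h7 : T A (P ^ n) G = n * T A P G := by rw [hr.tri.pow2]
      rw [h7]
      have h8 : (0 : ℝ) < n := by exact_mod_cast hn
      positivity
    exact_mod_cast h4

end Pool.Agent.H20.AB

namespace Pool.Agent.H20.AB

open Pool.Agent.H54.RV Pool.Agent.H83.TU Pool.Agent.H20.TD Pool.Agent.H20.TP Pool.Agent.H39.KN
open Pool.Agent.H43.WR (Jac)
open Pool.Agent.H24.VP (RR)

/-- **growth of the multiples of the elliptic classes** -/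
theorem gro_all {k K : Type} [Field k] [Field K] [Algebra k K] {X : Mod k K} {r : ℕ}
    {ν : Cart X →* Multiplicative (Fin r → ℤ)} {T : Cart X → Cart X → Cart X → ℝ} {l₀ : Cart X → ℝ} {c : ℝ} {TR : Tri3 r}
    {l : (Fin r → ℝ) →ₗ[ℝ] ℝ} {J : K → K → K → K} {κ : Cart X} [CharZero k] [IsAlgClosed k] [T0Space X.P] (h : Hyp X)
    (hr : RR T l₀ c) (hν : NumR ν) (hT : ∀ U V W, TR (cR ν U) (cR ν V) (cR ν W) = T U V W)
    (hl : ∀ D, l (cR ν D) = l₀ D) (hJ : Jac X J κ) (hκ : NumZ κ) (hnt : NumT X)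
    (hpos : ∀ q ∈ closure (AmpR ν), q ≠ 0 → 0 < l q) : Gro ν TR :=
  gro_red h hr hν hT hl hpos fun _ hP h3 hPP hlP hng => asm_false h hr hJ hκ (hnt κ hκ) hP h3 hPP hlP hng

end Pool.Agent.H20.AB

namespace Pool.Agent.H20.AB

open AlgebraicGeometry Pool.Agent.H57.KM Pool.Agent.H54.RV Pool.Agent.H83.TU Pool.Agent.H39.TZ Pool.Agent.H20.TD
  Pool.Agent.H39.RT Pool.Agent.H39.KN

/-- **THEOREM C** -/
theorem c_full {Y : Scheme.{0}} [IsIntegral Y] (f : Y ⟶ Spec (.of ℂ)) [IsProper f] [Smooth f]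
    (hd : Algebra.trdeg ℂ (FF f) = 3) (hA : ∃ D : Cart (mdl f), Ample D) {r : ℕ}
    (ν : Cart (mdl f) →* Multiplicative (Fin r → ℤ)) (hs : Function.Surjective ν) (hν : ∀ D, ν D = 1 ↔ NumZ D)
    (hH : ∀ A : Cart (mdl f), Ample A → ∃ a b c : ℝ, 0 < b ∧
      ∃ n₀ : ℕ, ∀ n : ℕ, n₀ ≤ n → (h0 A n : ℝ) = a * (n : ℝ) ^ 3 + b * n + c) :
    ∃ (T : (Fin r → ℝ) → (Fin r → ℝ) → (Fin r → ℝ) → ℝ) (l : (Fin r → ℝ) → ℝ) (c : ℝ), HilbF ν T l c ∧
      (∀ p ∈ closure (AmpR ν), 0 < l p → RatIn ν p ∨ ExcF ν T l p) ∧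
      ((∀ p ∈ closure (AmpR ν), p ≠ 0 → 0 < l p) → NefC (mdl f) ⊆ NefP (mdl f) ∧
        (KZero (mdl f) ∧ NumT (mdl f) →
          NefC (mdl f) ⊆ EffC (mdl f) ∧ RatPolyC (NefC (mdl f)) ∧ Q1Y f)) ∧
      ThrR ν T := by
  have h := Pool.Agent.H20.TU.hyp_smooth f hd hA
  have hSm := Pool.Agent.H20.TU.smP_mdl f hd
  have := Pool.Agent.H32.TK.t0_mdl f
  have hN : Pool.Agent.H20.TD.NumR ν := ⟨hs, hν⟩
  refine k_fin f hSm h hN hH (Q := fun _ => KZero (mdl f) ∧ NumT (mdl f))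
    fun T l₀ c TR l hr hT hl hpos hQ D hD hD0 => ?_
  obtain ⟨⟨J, κ, hJ, hκ⟩, hnt⟩ := hQ
  exact (rat_all hSm h hr hN hT hl hJ hκ hnt (ns_all hSm h hr hN hT hl hJ hκ)
    (gro_all h hr hN hT hl hJ hκ hnt hpos) hpos).2 D hD hD0

end Pool.Agent.H20.AB
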