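import Pool.Agent.H39.KN.Full

/-!
# [H20 AB Gro] ABUNDANCE (MP_e49dc9_ag): the reduction of `Gro` to one nef divisor
-/

set_option autoImplicit false

namespace Pool.Agent.H20.AB

open Pool.Agent.H54.RV Pool.Agent.H83.TU Pool.Agent.H83.TK Pool.Agent.H20.TD Pool.Agent.H20.TP Pool.Agent.H20.RT
open Pool.Agent.H24.VP (RR)
open Pool.Agent.H39.KN

variable {k K : Type} [Field k] [Field K] [Algebra k K] {X : Mod k K} {r : ℕ}
  {ν : Cart X →* Multiplicative (Fin r → ℤ)} {T : Cart X → Cart X → Cart X → ℝ} {l₀ : Cart X → ℝ} {c : ℝ} {TR : Tri3 r}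
  {l : (Fin r → ℝ) →ₗ[ℝ] ℝ}

/-- a numerically trivial divisor has the class `0` -/
theorem cR_numZ (hν : NumR ν) {D : Cart X} (hD : NumZ D) : cR ν D = 0 := by
  have h2 : ν D = ν 1 := by rw [(hν.ker D).2 hD, map_one]
  have h3 : ci ν D = ci ν 1 := by
    unfold ci
    rw [h2]
  show rv (ci ν D) = 0
  rw [h3]
  exact cR_one

theorem T_numZ (hν : NumR ν) (hT : ∀ U V W, TR (cR ν U) (cR ν V) (cR ν W) = T U V W) {D : Cart X} (hD : NumZ D)
    (U V : Cart X) : T D U V = 0 := by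
  rw [← hT, cR_numZ hν hD, map_zero]
  rfl

theorem gro_red [CharZero k] [IsAlgClosed k] [T0Space X.P] (h : Hyp X)
    (hr : RR T l₀ c) (hν : NumR ν) (hT : ∀ U V W, TR (cR ν U) (cR ν V) (cR ν W) = T U V W)
    (hl : ∀ D, l (cR ν D) = l₀ D) (hpos : ∀ q ∈ closure (AmpR ν), q ≠ 0 → 0 < l q)
    (hF : ∀ P : Cart X, (∀ B : Cart X, Ample B → Ample (B * P)) → T P P P = 0 → (∀ A : Cart X, Ample A → 0 < T P P A) →
      0 < l₀ P → (¬ ∃ c₀ : ℝ, 0 < c₀ ∧ ∃ n₀ : ℕ, ∀ n : ℕ, n₀ ≤ n → c₀ * (n : ℝ) ^ 2 ≤ h0 (P ^ n) 1) → False) :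
    Gro ν TR := by
  intro P hP h3 hPP
  by_contra hng
  have hcl : closure (AmpR ν) = closure (CC ν) := cl_eq h.var hν
  have hP' : cR ν P ∈ closure (AmpR ν) := by rwa [hcl]
  refine hF P ?_ (by rw [← hT]; exact h3) (fun A hA => ?_) ?_ hng
  · have h1 : rv (ci ν P) ∈ closure (AmpR ν) := hP'
    exact Pool.Agent.H39.TZ.nf_of_cl h.var hν h1
  · rw [← hT]
    have hAC : cR ν A ∈ closure (CC ν) := subset_closure (cc_amp h.var hν hA)
    rcases (tr_nn h hr hν hT hP hP hAC).eq_or_lt with h1 | h1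
    · exact absurd (pq_zero h hr hν hT hA hP hP h1.symm) hPP
    · exact h1
  · rw [← hl]
    refine hpos _ hP' fun h0 => hPP ?_
    rw [h0, map_zero]

end Pool.Agent.H20.AB
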