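import Pool.Agent.H20.AB.Ln

/-!
# [H20 AB Ll] THEOREM C (MP_e49dc9_ag), local form

`Cp ν TR l p`: `l w > 0` for all nonzero nef `w` with `(p + w) ^ 3 = 0`.  If `Cp ν TR l p` then the nef cone is rational polyhedral near `p` and `p` is effective.

* `cub_mono`, `cub_zero`: cubes of nef classes.
* `cp_le`: `Cp` is inherited by larger classes.
* `ell_l`: nef classes `q` with `q . q ≠ 0`.
* `in_l`: `p` is an interior point of the nef cone of its rational hull.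
* `int_l`: integral classes.
* `rat_of_in_l`, `ratin_cone_l`: from the integral classes to all classes.
* `loc_l`: the local theorem.
-/

set_option autoImplicit false

namespace Pool.Agent.H20.AB

open Pool.Agent.H54.RV Pool.Agent.H83.TU Pool.Agent.H83.TK Pool.Agent.H20.TD Pool.Agent.H20.TP Pool.Agent.H20.RT
  Pool.Agent.H39.KN
open Pool.Agent.H24.VP (RR)
open Pool.Agent.H43.WR (Jac)
open Pool.Agent.H39.TZ (RatAt EffR cube_nn loc_poly)
open Pool.Agent.H39.RT (RatIn rat_norm cco_nef)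
open Pool.Agent.H60.ZC (Ph form)

variable {k K : Type} [Field k] [Field K] [Algebra k K] {X : Mod k K} {r : ℕ}
  {ν : Cart X →* Multiplicative (Fin r → ℤ)} {T : Cart X → Cart X → Cart X → ℝ} {l₀ : Cart X → ℝ} {c : ℝ} {TR : Tri3 r}
  {l : (Fin r → ℝ) →ₗ[ℝ] ℝ} {J : K → K → K → K} {κ A F : Cart X}

/-- `l` is positive on the nonzero nef classes `w` with `(p + w) ^ 3 = 0` -/
def Cp (ν : Cart X →* Multiplicative (Fin r → ℤ)) (TR : Tri3 r) (l : (Fin r → ℝ) →ₗ[ℝ] ℝ) (p : Fin r → ℝ) : Prop :=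
  ∀ w ∈ closure (AmpR ν), w ≠ 0 → TR (p + w) (p + w) (p + w) = 0 → 0 < l w

theorem cl_addA (hX : IsVar X) (hν : NumR ν) {x y : Fin r → ℝ} (hx : x ∈ closure (AmpR ν)) (hy : y ∈ closure (AmpR ν)) :
    x + y ∈ closure (AmpR ν) := (cco_nef hX hν).add x hx y hy

theorem cl_smulA (hX : IsVar X) (hν : NumR ν) {a : ℝ} (ha : 0 ≤ a) {x : Fin r → ℝ} (hx : x ∈ closure (AmpR ν)) :
    a • x ∈ closure (AmpR ν) := (cco_nef hX hν).smul a ha x hx

section cub

variable [CharZero k] [IsAlgClosed k] [T0Space X.P] (h : Hyp X) (hr : RR T l₀ c) (hν : NumR ν)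
  (hT : ∀ U V W, TR (cR ν U) (cR ν V) (cR ν W) = T U V W)

include h hr hν hT

theorem tr_nnA {x y z : Fin r → ℝ} (hx : x ∈ closure (AmpR ν)) (hy : y ∈ closure (AmpR ν))
    (hz : z ∈ closure (AmpR ν)) : 0 ≤ TR x y z := by
  rw [cl_eq h.var hν] at hx hy hz
  exact tr_nn h hr hν hT hx hy hz

/-- the cube of a sum -/
theorem cub_add (x y : Fin r → ℝ) : TR (x + y) (x + y) (x + y) =
    TR x x x + 3 * TR x x y + 3 * TR x y y + TR y y y := by
  have s12 := tr_s12 hr hν hT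
  have s23 := tr_s23 hr hν hT
  have e1 : TR x y x = TR x x y := s23 _ _ _
  have e2 : TR y x x = TR x x y := by rw [s12, s23]
  have e3 : TR y x y = TR x y y := s12 _ _ _
  have e4 : TR y y x = TR x y y := by rw [s23, s12]
  simp only [map_add, LinearMap.add_apply, e1, e2, e3, e4]
  ring

theorem cub_zero {x y : Fin r → ℝ} (hx : x ∈ closure (AmpR ν)) (hy : y ∈ closure (AmpR ν))
    (h0 : TR (x + y) (x + y) (x + y) = 0) : TR x x x = 0 ∧ TR x x y = 0 ∧ TR x y y = 0 ∧ TR y y y = 0 := by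
  rw [cub_add h hr hν hT] at h0
  have h1 := tr_nnA h hr hν hT hx hx hx
  have h2 := tr_nnA h hr hν hT hx hx hy
  have h3 := tr_nnA h hr hν hT hx hy hy
  have h4 := tr_nnA h hr hν hT hy hy hy
  refine ⟨?_, ?_, ?_, ?_⟩ <;> linarith

/-- `Cp` is inherited by the classes `d` with `c d - p` nef -/
theorem cp_le {p d : Fin r → ℝ} (hp : p ∈ closure (AmpR ν)) (hd : d ∈ closure (AmpR ν)) {a : ℝ} (ha : 0 < a)
    (hdp : a • d - p ∈ closure (AmpR ν)) (hC : Cp ν TR l p) : Cp ν TR l d := by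
  intro w hw hw0 h0
  refine hC w hw hw0 ?_
  obtain ⟨b, hb⟩ : ∃ b, b = a + 1 := ⟨_, rfl⟩
  have hb0 : 0 < b := by linarith
  have h1 : b • (d + w) - (p + w) ∈ closure (AmpR ν) := by
    have h2 := cl_addA h.var hν (cl_addA h.var hν hdp hd) (cl_smulA h.var hν ha.le hw)
    have e : a • d - p + d + a • w = b • (d + w) - (p + w) := by
      rw [hb]
      module
    rwa [e] at h2
  have h2 : TR (b • (d + w)) (b • (d + w)) (b • (d + w)) = 0 := by
    simp only [map_smul, LinearMap.smul_apply, smul_eq_mul, h0, mul_zero]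
  have h3 : (p + w) + (b • (d + w) - (p + w)) = b • (d + w) := by abel
  rw [← h3] at h2
  exact (cub_zero h hr hν hT (cl_addA h.var hν hp hw) h1 h2).1

end cub

/-- growth for one divisor -/
theorem gro_one [CharZero k] [IsAlgClosed k] [T0Space X.P] (h : Hyp X)
    (hr : RR T l₀ c) (hν : NumR ν) (hT : ∀ U V W, TR (cR ν U) (cR ν V) (cR ν W) = T U V W)
    (hl : ∀ D, l (cR ν D) = l₀ D) (hJ : Jac X J κ) (hκ : NumZ κ) (hnt : NumT X) {P : Cart X}
    (hP : cR ν P ∈ closure (CC ν)) (h3 : TR (cR ν P) (cR ν P) (cR ν P) = 0) (hPP : TR (cR ν P) (cR ν P) ≠ 0)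
    (hlP : 0 < l (cR ν P)) : ∃ c₀ : ℝ, 0 < c₀ ∧ ∃ n₀ : ℕ, ∀ n : ℕ, n₀ ≤ n → c₀ * (n : ℝ) ^ 2 ≤ h0 (P ^ n) 1 := by
  by_contra hng
  have hcl : closure (AmpR ν) = closure (CC ν) := cl_eq h.var hν
  have hP' : rv (ci ν P) ∈ closure (AmpR ν) := by rwa [hcl]
  refine asm_false h hr hJ hκ (hnt κ hκ) (Pool.Agent.H39.TZ.nf_of_cl h.var hν hP') (by rw [← hT]; exact h3)
    (fun A hA => ?_) (by rw [← hl]; exact hlP) hng
  rw [← hT]
  have hAC : cR ν A ∈ closure (CC ν) := subset_closure (cc_amp h.var hν hA)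
  rcases (tr_nn h hr hν hT hP hP hAC).eq_or_lt with h1 | h1
  · exact absurd (pq_zero h hr hν hT hA hP hP h1.symm) hPP
  · exact h1

/-- the nef classes with `q . q ≠ 0` -/
theorem ell_l [CharZero k] [IsAlgClosed k] [T0Space X.P] (hSm : Pool.Agent.H20.TU.SmP X) (h : Hyp X)
    (hr : RR T l₀ c) (hν : NumR ν) (hT : ∀ U V W, TR (cR ν U) (cR ν V) (cR ν W) = T U V W)
    (hl : ∀ D, l (cR ν D) = l₀ D) (hJ : Jac X J κ) (hκ : NumZ κ) (hnt : NumT X) {q : Fin r → ℝ}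
    (hq : q ∈ closure (CC ν)) (hqq : TR q q ≠ 0)
    (hL : TR q q q = 0 → ∀ w ∈ closure (AmpR ν), w ≠ 0 → TR w w w = 0 → TR q q w = 0 → 0 < l w) : RatAt ν q := by
  have hcl : closure (AmpR ν) = closure (CC ν) := cl_eq h.var hν
  rcases (tr_nn h hr hν hT hq hq hq).lt_or_eq with h3 | h3
  · exact loc_poly h hr hν hT (by rwa [hcl]) h3
  · replace hL := hL h3.symm
    obtain ⟨A, hA⟩ := h.amp
    have f : Pool.Agent.H60.ZC.Fr ν T l₀ c TR l A := ⟨h, hr, hν, hT, hl, hA⟩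
    refine rat_ell_l f (fun w hw hw0 hw3 hqw => hL w (by rwa [hcl]) hw0 hw3 hqw) (fun w hw hw0 hw3 hqw => ?_)
      (fun P hP hP3 hPP hqP => gro_one h hr hν hT hl hJ hκ hnt hP hP3 hPP (hL _ (by rwa [hcl]) (fun h0 => hPP (by
        rw [h0, map_zero])) hP3 hqP)) hq h3.symm hqq
    rcases Pool.Agent.H89.RS.thmRS hSm h hr hν hT hl (p := w) (by rwa [hcl]) (hL w (by rwa [hcl]) hw0 hw3 hqw) with
      h1 | ⟨s, q', G, hs, hq', hq'0, hG, -, hwq, hq'q, -, hlq⟩
    · rwa [hcl] at h1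
    · exfalso
      refine absurd (hL q' hq' hq'0 (by rw [hq'q]; rfl) ?_) (not_lt.2 hlq)
      rw [← hcl] at hq
      have h2 := tr_nnA h hr hν hT hq hq hq'
      have h4 := tr_nnA h hr hν hT hq hq (cl_smulA h.var hν hs.le hG)
      rw [hwq, map_add] at hqw
      linarith

/-- **interior points of the rational hull** -/
theorem in_l [CharZero k] [IsAlgClosed k] [T0Space X.P] (hSm : Pool.Agent.H20.TU.SmP X) (h : Hyp X)
    (hr : RR T l₀ c) (hν : NumR ν) (hT : ∀ U V W, TR (cR ν U) (cR ν V) (cR ν W) = T U V W)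
    (hl : ∀ D, l (cR ν D) = l₀ D) {p : Fin r → ℝ} (hp : p ∈ closure (AmpR ν)) (hp0 : p ≠ 0) (hC : Cp ν TR l p) :
    ∃ e : ℝ, 0 < e ∧ ∀ y ∈ Vp p, ‖y - p‖ < e → y ∈ closure (AmpR ν) := by
  rcases (cube_nn h hr hT hp).lt_or_eq with h3 | h3
  · exact in_of_at h.var hν hp (loc_poly h hr hν hT hp h3)
  · have hlp : 0 < l p := hC p hp hp0 (by
      rw [cub_add h hr hν hT, ← h3]
      ring)
    rcases Pool.Agent.H89.RS.thmRS hSm h hr hν hT hl hp hlp with
      h1 | ⟨s, q, G, hs, hq, hq0, hG, -, hpq, hqq, hGG, hlq⟩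
    · exact h1
    · exfalso
      refine absurd (hC q hq hq0 ?_) (not_lt.2 hlq)
      have s12 := tr_s12 hr hν hT
      have s23 := tr_s23 hr hν hT
      have e1 : ∀ v, TR q (cR ν G) v = TR q v (cR ν G) := fun v => s23 _ _ _
      have e2 : ∀ v, TR q q v = 0 := fun v => by rw [hqq]; rfl
      have e3 : ∀ v, TR (cR ν G) (cR ν G) v = 0 := fun v => by rw [hGG]; rfl
      have e4 : TR q (cR ν G) (cR ν G) = 0 := by rw [s12, s23, hGG]; rfl
      have e5 : TR (cR ν G) q (cR ν G) = 0 := by rw [s12, e4]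
      have e6 : TR (cR ν G) q q = 0 := by rw [s12, s23, hqq]; rfl
      have e7 : TR q (cR ν G) q = 0 := by rw [s23, hqq]; rfl
      rw [hpq]
      simp only [map_add, map_smul, LinearMap.add_apply, LinearMap.smul_apply, smul_eq_mul, e2, e3, e4, e5, e6, e7,
        mul_zero, add_zero]

end Pool.Agent.H20.AB
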