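import Pool.Agent.H20.AB.Ll

/-!
# [H20 AB Lm] THEOREM C (MP_e49dc9_ag), local form: the end of the proof
-/

set_option autoImplicit false

namespace Pool.Agent.H20.AB

open Pool.Agent.H54.RV Pool.Agent.H83.TU Pool.Agent.H83.TK Pool.Agent.H20.TD Pool.Agent.H20.TP Pool.Agent.H20.RT
  Pool.Agent.H39.KN
open Pool.Agent.H24.VP (RR)
open Pool.Agent.H43.WR (Jac Pu)
open Pool.Agent.H39.TZ (RatAt EffR cube_nn loc_poly)
open Pool.Agent.H39.RT (RatIn rat_norm cco_nef CCo RAt RIn rat_move effr_add effr_smul)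
open Pool.Agent.H60.ZC (Ph form)
open Pool.Agent.H32.KF (Pcl)

section iso

variable {k K : Type} [Field k] [Field K] [Algebra k K] {X : Mod k K} {r : ℕ}
  {ν : Cart X →* Multiplicative (Fin r → ℤ)} {T : Cart X → Cart X → Cart X → ℝ} {l₀ : Cart X → ℝ} {c : ℝ} {TR : Tri3 r}
  {l : (Fin r → ℝ) →ₗ[ℝ] ℝ} {J : K → K → K → K} {κ A F : Cart X}

/-- the isotropic integral classes -/
theorem rat_iso_l [CharZero k] [IsAlgClosed k] [T0Space X.P] (hSm : Pool.Agent.H20.TU.SmP X) (h : Hyp X)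
    (hr : RR T l₀ c) (hν : NumR ν) (hT : ∀ U V W, TR (cR ν U) (cR ν V) (cR ν W) = T U V W)
    (hl : ∀ D, l (cR ν D) = l₀ D) (hJ : Jac X J κ) (hκ : NumZ κ) (hnt : NumT X) {N : Cart X} (hN : cR ν N ∈ closure (AmpR ν))
    (hpos : 0 < l (cR ν N)) (hsq : TR (cR ν N) (cR ν N) = 0)
    (hCN : ∀ w ∈ closure (AmpR ν), w ≠ 0 → TR w w w = 0 → TR (cR ν N) w w = 0 → 0 < l w) : RatAt ν (cR ν N) ∧ EffR ν (cR ν N) := by
  have hsq' : ∀ U, T N N U = 0 := fun U => by rw [← hT, hsq, LinearMap.zero_apply]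
  constructor
  · obtain ⟨F, u, m, hm, hP, hc⟩ := pen_t h hr hν hT hl hnt hN hsq' (by rw [← hl]; exact hpos)
    obtain ⟨A, hA⟩ := h.amp
    have hF : cR ν F = m⁻¹ • cR ν N := by rw [hc, smul_smul, inv_mul_cancel₀ hm.ne', one_smul]
    have hNC : cR ν N ∈ closure (CC ν) := by rwa [← cl_eq h.var hν]
    have hFC : cR ν F ∈ closure (CC ν) := by
      rw [hF]
      exact cl_smul (inv_nonneg.2 hm.le) hNC
    have hFF : TR (cR ν F) (cR ν F) = 0 := by
      rw [hF]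
      simp only [map_smul, LinearMap.smul_apply, hsq, smul_zero]
    have hlF : 0 < l (cR ν F) := by
      rw [hF, map_smul, smul_eq_mul]
      exact mul_pos (inv_pos.2 hm) hpos
    have hF0 : cR ν F ≠ 0 := by
      intro h0
      rw [h0, map_zero] at hlF
      exact lt_irrefl _ hlF
    have hFA := iso_pos h hr hν hT hA hFC hF0 hFF
    have hPu : Pu X F u := by
      refine ⟨fun x => ?_, fun x => ?_, fun x => ?_⟩
      · have h1 := hP.m0 x
        rwa [pow_one, one_mul] at h1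
      · have h1 := hP.m1 x
        rwa [pow_one] at h1
      · have h1 := hP.un x
        rwa [one_mul] at h1
    have hFn : ∀ B : Cart X, Ample B → Ample (B * F) := by
      have h1 : rv (ci ν F) ∈ closure (AmpR ν) := by
        rw [cl_eq h.var hν]
        exact hFC
      exact Pool.Agent.H39.TZ.nf_of_cl h.var hν h1
    have hMI : MI ν T A F := Pool.Agent.H43.WR.mi hSm h hr hν hT hJ hκ hPu
      (fun D => by rw [← hT, hFF, LinearMap.zero_apply]) hFn hA
    have hcl : closure (AmpR ν) = closure (CC ν) := cl_eq h.var hν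
    have fr : Pool.Agent.H60.ZC.Fr ν T l₀ c TR l A := ⟨h, hr, hν, hT, hl, hA⟩
    have hrat : ∀ q ∈ closure (CC ν), TR q q ≠ 0 → (TR q q q = 0 → TR q q (cR ν F) = 0) → RatAt ν q := by
      intro q hq hqq hqF
      refine ell_l hSm h hr hν hT hl hJ hκ hnt hq hqq fun h3 w hw hw0 hw3 hqw => hCN w hw hw0 hw3 ?_
      have h1 : TR w w (cR ν F) = 0 := by
        rw [form fr hq h3 hqq (w := w) (w' := w) (Submodule.subset_span ⟨by rwa [← hcl], hqw⟩)
          (Submodule.subset_span ⟨by rwa [← hcl], hqw⟩), hqF h3, mul_zero]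
      have h2 : TR (cR ν F) w w = 0 := by
        rw [tr_s12 hr hν hT, tr_s23 hr hν hT, h1]
      rw [hc, map_smul, LinearMap.smul_apply, LinearMap.smul_apply, h2, smul_zero]
    have h5 := n5_l h hr hν hT hA hFC hFF hFA (ns_all hSm h hr hν hT hl hJ hκ A F u hA hP hFC hFF hlF hFA hMI) hrat
    rw [hc]
    exact rat_smul h.var hν hm h5
  · obtain ⟨D, ⟨P, -, hS⟩, -, s, hs, hNs'⟩ := Pool.Agent.H20.ZO.z0 h hr hν hT hl hN hsq' (by rw [← hl]; exact hpos)
    rw [hNs']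
    exact ⟨1, fun _ => s, fun _ => D 0, fun _ => ⟨hs.le, (hS 0).eff⟩, by simp⟩


/-- **integral classes** -/
theorem int_l [CharZero k] [IsAlgClosed k] [T0Space X.P] (hSm : Pool.Agent.H20.TU.SmP X) (h : Hyp X)
    (hr : RR T l₀ c) (hν : NumR ν) (hT : ∀ U V W, TR (cR ν U) (cR ν V) (cR ν W) = T U V W)
    (hint : ∀ U V W, ∃ z : ℤ, TR (cR ν U) (cR ν V) (cR ν W) = z)
    (hl : ∀ D, l (cR ν D) = l₀ D) (hJ : Jac X J κ) (hκ : NumZ κ) (hnt : NumT X) {D : Cart X}
    (hD : cR ν D ∈ closure (AmpR ν)) (hD0 : cR ν D ≠ 0) (hC : Cp ν TR l (cR ν D)) :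
    RatAt ν (cR ν D) ∧ EffR ν (cR ν D) := by
  have hcl : closure (AmpR ν) = closure (CC ν) := cl_eq h.var hν
  have s12 := tr_s12 hr hν hT
  have s23 := tr_s23 hr hν hT
  rcases (cube_nn h hr hT hD).lt_or_eq with h3 | h3
  · exact ⟨loc_poly h hr hν hT hD h3, Pool.Agent.H32.TN.effr_of_big h hr hν hT hD h3⟩
  · have hlD : 0 < l (cR ν D) := hC _ hD hD0 (by
      rw [cub_add h hr hν hT, ← h3]
      ring)
    by_cases hDD : TR (cR ν D) (cR ν D) = 0
    · refine rat_iso_l hSm h hr hν hT hl hJ hκ hnt hD hlD hDD fun w hw hw0 hw3 hDw => hC w hw hw0 ?_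
      rw [cub_add h hr hν hT, hw3, hDw, ← h3, hDD, LinearMap.zero_apply]
      ring
    · obtain ⟨A, hA⟩ := h.amp
      have fr : Pool.Agent.H60.ZC.Fr ν T l₀ c TR l A := ⟨h, hr, hν, hT, hl, hA⟩
      have hD' : cR ν D ∈ closure (CC ν) := by rwa [← hcl]
      refine ⟨ell_l hSm h hr hν hT hl hJ hκ hnt hD' hDD fun _ w hw hw0 hw3 hDw => hC w hw hw0 ?_, ?_⟩
      · have h1 : TR w w (cR ν D) = 0 := by
          rw [form fr hD' h3.symm hDD (w := w) (w' := w) (Submodule.subset_span ⟨by rwa [← hcl], hDw⟩)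
            (Submodule.subset_span ⟨by rwa [← hcl], hDw⟩), ← h3, mul_zero]
        have h2 : TR (cR ν D) w w = 0 := by rw [s12, s23, h1]
        rw [cub_add h hr hν hT, hw3, hDw, h2, ← h3]
        ring
      · rcases Pool.Agent.H32.TN.z_irr h hν hr hT hl hD hlD hDD with h6 | ⟨-, -, h6⟩
        · exact h6
        · exact absurd ⟨TR (cR ν D) (cR ν D), 1, fun E => hint D D E, fun v => (one_mul _).symm⟩ h6

end iso

section cone

variable {r : ℕ} {N : Set (Fin r → ℝ)} {p : Fin r → ℝ}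

/-- the local structure, from the integral classes `d` with `a d - p` in the cone -/
theorem rat_of_in_l (hN : CCo N) (h : RIn N p) (hp : p ≠ 0)
    (hR : ∀ d : Fin r → ℤ, rv d ∈ N → rv d ≠ 0 → (∃ a : ℝ, 0 < a ∧ a • rv d - p ∈ N) → RAt N (rv d)) : RAt N p := by
  obtain ⟨e, he, hb⟩ := h
  have hn := norm_pos_iff.2 hp
  obtain ⟨d, x, hx, h1, h2⟩ := Pool.Agent.H39.RT.exists_rat p (lt_min (half_pos he) hn)
  have h3 := h1.trans_le (min_le_left _ _)
  have h4 := h1.trans_le (min_le_right _ _)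
  have h0 : rv d ≠ 0 := by
    intro h0
    rw [h0, smul_zero, zero_sub, norm_neg] at h4
    exact lt_irrefl _ h4
  have h5 : x⁻¹ • rv d ∈ N := hb _ (fun φ hφ => by rw [dotProduct_smul, h2 φ hφ, smul_zero]) (by linarith)
  have h6 : rv d ∈ N := by
    have h6 := hN.smul x hx.le _ h5
    rwa [smul_smul, mul_inv_cancel₀ hx.ne', one_smul] at h6
  have h7 : (2 : ℝ) • x⁻¹ • rv d - p ∈ N := by
    refine hb _ (fun φ hφ => ?_) ?_
    · rw [dotProduct_sub, dotProduct_smul, dotProduct_smul, h2 φ hφ, hφ, smul_zero, smul_zero, sub_zero]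
    · have e1 : (2 : ℝ) • x⁻¹ • rv d - p - p = (2 : ℝ) • (x⁻¹ • rv d - p) := by module
      rw [e1, norm_smul, Real.norm_eq_abs, abs_of_pos (by norm_num : (0 : ℝ) < 2)]
      linarith
  refine rat_move hN h5 (Pool.Agent.H39.RT.rat_smul hN (inv_pos.2 hx)
    (hR d h6 h0 ⟨2 * x⁻¹, by positivity, by rwa [mul_smul]⟩)) ?_ h7
  refine hb _ (fun φ hφ => ?_) ?_
  · rw [dotProduct_sub, dotProduct_smul, dotProduct_smul, h2 φ hφ, hφ, smul_zero, smul_zero, sub_zero]
  · have e1 : (2 : ℝ) • p - x⁻¹ • rv d - p = -(x⁻¹ • rv d - p) := by module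
    rw [e1, norm_neg]
    linarith

end cone

end Pool.Agent.H20.AB
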