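import Pool.Agent.H20.AB.Lc

/-!
# [H20 AB Ln] THEOREM C (MP_e49dc9_ag), local form: the isotropic classes

* `n5_l`: `n5` (helper39, H39/KN/N5, the same proof) where `RatAt ν q` is known only if `q ^ 3 > 0` or `q . q . F = 0`.
-/

set_option autoImplicit false

namespace Pool.Agent.H20.AB

open Pool.Agent.H54.RV Pool.Agent.H83.TU Pool.Agent.H83.TK Pool.Agent.H20.TD Pool.Agent.H20.TP Pool.Agent.H20.RT
  Pool.Agent.H39.KN
open Pool.Agent.H24.VP (RR)
open Pool.Agent.H24.RC (eps_nn)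

variable {k K : Type} [Field k] [Field K] [Algebra k K] {X : Mod k K} {r : ℕ}
  {ν : Cart X →* Multiplicative (Fin r → ℤ)} {T : Cart X → Cart X → Cart X → ℝ} {l : Cart X → ℝ} {c : ℝ} {TR : Tri3 r}
  {A F : Cart X}

private theorem cc_cone (hX : IsVar X) (hν : NumR ν) (hA : Ample A) : Pool.Agent.H32.ZC.Cone (closure (CC ν)) where
  cl := isClosed_closure
  cv := by
    refine Convex.closure ?_
    intro x hx y hy a b ha hb hab
    rcases ha.eq_or_lt with h1 | h1
    · rw [← h1, zero_smul, zero_add]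
      rw [← h1, zero_add] at hab
      rw [hab, one_smul]
      exact hy
    rcases hb.eq_or_lt with h2 | h2
    · rw [← h2, zero_smul, add_zero]
      rw [← h2, add_zero] at hab
      rw [hab, one_smul]
      exact hx
    exact cc_add hX hν (cc_smul h1 hx) (cc_smul h2 hy)
  sm := fun a x ha hx => cl_smul ha.le hx
  int := ⟨cR ν A, interior_mono subset_closure (by rw [cc_open.interior_eq]; exact cc_amp hX hν hA)⟩

private theorem rat_iff (hX : IsVar X) (hν : NumR ν) (x : Fin r → ℝ) :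
    Pool.Agent.H39.TZ.RatAt ν x ↔ Pool.Agent.H32.ZC.RatC (closure (CC ν)) x := by
  unfold Pool.Agent.H39.TZ.RatAt Pool.Agent.H32.ZC.RatC
  rw [cl_eq hX hν]

/-- the closure of the tangent cone -/
private theorem tq_tg (hX : IsVar X) (hν : NumR ν) (hA : Ample A) {D : Fin r → ℝ}
    (hD : D ∈ Pool.Agent.H32.ZC.Tq (closure (CC ν)) (cR ν F)) : Tn ν A F D := by
  intro ε hε
  obtain ⟨ρ, hρ, hball⟩ := Metric.isOpen_iff.1 (cc_open (ν := ν)) _ (cc_amp hX hν hA)
  obtain ⟨D', ⟨t, ht⟩, hd⟩ := Metric.mem_closure_iff.1 hD (ε * ρ) (by positivity)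
  refine ⟨t, ?_⟩
  have h1 : cR ν A + ε⁻¹ • (D - D') ∈ CC ν := by
    refine hball ?_
    rw [Metric.mem_ball, dist_eq_norm]
    have e : rv (ci ν A) + ε⁻¹ • (D - D') - rv (ci ν A) = ε⁻¹ • (D - D') := by abel
    rw [e, norm_smul, norm_inv, Real.norm_eq_abs, abs_of_pos hε, inv_mul_lt_iff₀ hε, ← dist_eq_norm]
    exact hd
  have h2 := (cc_cone hX hν hA).add ht (subset_closure (cc_smul hε h1))
  have e : D' + t • cR ν F + ε • (cR ν A + ε⁻¹ • (D - D')) = D + ε • cR ν A + t • cR ν F := by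
    rw [smul_add, smul_smul, mul_inv_cancel₀ hε.ne', one_smul]
    abel
  rwa [e] at h2

theorem n5_l [CharZero k] [IsAlgClosed k] [T0Space X.P] (h : Hyp X) (hr : RR T l c) (hν : NumR ν)
    (hT : ∀ U V W, TR (cR ν U) (cR ν V) (cR ν W) = T U V W) (hA : Ample A)
    (hF : cR ν F ∈ closure (CC ν)) (hsq : TR (cR ν F) (cR ν F) = 0) (hpos : 0 < TR (cR ν F) (cR ν A) (cR ν A))
    (hN : Ns ν TR A F) (hrat : ∀ q ∈ closure (CC ν), TR q q ≠ 0 → (TR q q q = 0 → TR q q (cR ν F) = 0) →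
      Pool.Agent.H39.TZ.RatAt ν q) :
    Pool.Agent.H39.TZ.RatAt ν (cR ν F) := by
  have s12 := tr_s12 hr hν hT
  have s23 := tr_s23 hr hν hT
  have hAC : cR ν A ∈ closure (CC ν) := subset_closure (cc_amp h.var hν hA)
  have hC : Pool.Agent.H32.ZC.Cone (closure (CC ν)) := cc_cone h.var hν hA
  rw [rat_iff h.var hν]
  -- the integral functional `T(F,A,.)`
  obtain ⟨φ, hφ⟩ := int_fun hν (F := TR (cR ν F) (cR ν A)) fun D => by
    obtain ⟨n, hn⟩ := Pool.Agent.H24.VP.t_int hr ⟨A, hA⟩ F A D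
    exact ⟨n, by rw [hT, hn]⟩
  refine Pool.Agent.H32.ZC.cvx hC hF (φ₀ := φ) ?_ (fun y hy => ?_) ?_ ?_
  · intro h0
    have h1 := hφ (cR ν A)
    rw [h0] at h1
    have e : rv (0 : Fin r → ℤ) = 0 := by
      funext i
      simp [rv]
    rw [e, zero_dotProduct] at h1
    linarith
  · rw [← hφ]
    exact tr_nn h hr hν hT hF hAC hy
  · rw [← hφ, s23, hsq, LinearMap.zero_apply]
  · intro D hDT hDN
    have hD := tq_tg h.var hν hA hDT
    obtain ⟨t₁, ht₁⟩ := tan_dec h hr hν hT hA hF hsq hpos hN hD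
    have hmem : ∀ t, t₁ ≤ t → D + t • cR ν F ∈ closure (CC ν) := by
      intro t ht
      have h1 := hC.add ht₁ (cl_smul (show 0 ≤ t - t₁ by linarith) hF)
      have e : D + t₁ • cR ν F + (t - t₁) • cR ν F = D + t • cR ν F := by
        rw [sub_smul]
        abel
      rwa [e] at h1
    -- `T(F,D,.)` is not zero
    obtain ⟨v, hv⟩ : ∃ v, TR (cR ν F) D v ≠ 0 := by
      by_contra hno
      push Not at hno
      obtain ⟨a, ha⟩ := hN.n4 D hD hno
      apply hDN
      rw [ha]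
      exact (Pool.Agent.H32.ZC.Nq hC hF).smul_mem a (Pool.Agent.H32.ZC.self_Nq hC hF)
    -- so `(D + t F) . (D + t F)` is zero for at most one `t`
    obtain ⟨t₂, ht₂⟩ : ∃ t₂ : ℝ, ∀ t, t₂ < t → TR (D + t • cR ν F) (D + t • cR ν F) v ≠ 0 := by
      refine ⟨-(TR D D v) / (2 * TR (cR ν F) D v), fun t ht h0 => ?_⟩
      have e1 : TR D (cR ν F) v = TR (cR ν F) D v := s12 _ _ _
      simp only [map_add, map_smul, LinearMap.add_apply, LinearMap.smul_apply, smul_eq_mul, hsq, LinearMap.zero_apply,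
        mul_zero, add_zero, e1] at h0
      have h1 : t = -(TR D D v) / (2 * TR (cR ν F) D v) := by
        rw [eq_div_iff (mul_ne_zero two_ne_zero hv)]
        linarith
      linarith
    -- the cube
    have hqF : ∀ t : ℝ, TR (D + t • cR ν F) (D + t • cR ν F) (cR ν F) = TR (cR ν F) D D := by
      intro t
      have e1 : TR D D (cR ν F) = TR (cR ν F) D D := by rw [s23, s12]
      have e2 : TR D (cR ν F) (cR ν F) = 0 := by rw [s12, s23, hsq, LinearMap.zero_apply]
      have e3 : TR (cR ν F) D (cR ν F) = 0 := by rw [s23, hsq, LinearMap.zero_apply]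
      simp only [map_add, map_smul, LinearMap.add_apply, LinearMap.smul_apply, smul_eq_mul, hsq, LinearMap.zero_apply,
        mul_zero, add_zero, e1, e2, e3]
    have hq3 : ∀ t : ℝ, TR (D + t • cR ν F) (D + t • cR ν F) (D + t • cR ν F) = TR D D D + 3 * t * TR (cR ν F) D D := by
      intro t
      have e1 : TR D D (cR ν F) = TR (cR ν F) D D := by rw [s23, s12]
      have e2 : TR D (cR ν F) (cR ν F) = 0 := by rw [s12, s23, hsq, LinearMap.zero_apply]
      have e3 : TR (cR ν F) D (cR ν F) = 0 := by rw [s23, hsq, LinearMap.zero_apply]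
      have e4 : TR D (cR ν F) D = TR (cR ν F) D D := s12 _ _ _
      simp only [map_add, map_smul, LinearMap.add_apply, LinearMap.smul_apply, smul_eq_mul, hsq, LinearMap.zero_apply,
        mul_zero, add_zero, e1, e2, e3, e4]
      ring
    obtain ⟨t₃, ht₃⟩ : ∃ t₃ : ℝ, ∀ t, t₃ < t → TR (D + t • cR ν F) (D + t • cR ν F) (D + t • cR ν F) = 0 →
        t₁ ≤ t → TR (D + t • cR ν F) (D + t • cR ν F) (cR ν F) = 0 := by
      refine ⟨-(TR D D D) / (3 * TR (cR ν F) D D), fun t ht h0 ht1 => ?_⟩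
      have h1 : 0 ≤ TR (cR ν F) D D := by
        rw [← hqF t]
        exact tr_nn h hr hν hT (hmem t ht1) (hmem t ht1) hF
      rw [hqF]
      rcases h1.eq_or_lt with h2 | h2
      · exact h2.symm
      · exfalso
        rw [hq3] at h0
        rw [div_lt_iff₀ (by positivity)] at ht
        linarith
    refine ⟨max (max t₁ (t₃ + 1)) (t₂ + 1), fun t ht => ?_⟩
    have ht1 : t₁ ≤ t := (le_max_left _ _).trans ((le_max_left _ _).trans ht)
    have h1 := hmem t ht1
    refine ⟨h1, ?_⟩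
    rw [← rat_iff h.var hν]
    refine hrat _ h1 (fun h0 => ?_) (fun h3 => ht₃ t ?_ h3 ht1)
    · refine ht₂ t (by linarith [(le_max_right (max t₁ (t₃ + 1)) (t₂ + 1)).trans ht]) ?_
      rw [h0, LinearMap.zero_apply]
    · linarith [(le_max_right t₁ (t₃ + 1)).trans ((le_max_left (max t₁ (t₃ + 1)) (t₂ + 1)).trans ht)]

end Pool.Agent.H20.AB
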