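import Pool.Agent.H20.AB.Lm

/-!
# [H20 AB Lo] THEOREM C (MP_e49dc9_ag), local form: the final statement

* `ratin_cone_l`: from the integral classes near the ray of `p` to `p`.
* `loc_l`: the local theorem.
-/

set_option autoImplicit false

namespace Pool.Agent.H20.AB

open Pool.Agent.H54.RV Pool.Agent.H83.TU Pool.Agent.H83.TK Pool.Agent.H20.TD Pool.Agent.H20.TP Pool.Agent.H20.RT
  Pool.Agent.H39.KN
open Pool.Agent.H24.VP (RR)
open Pool.Agent.H43.WR (Jac Pu)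
open Pool.Agent.H39.TZ (RatAt EffR cube_nn loc_poly effr_zero)
open Pool.Agent.H39.RT (RatIn rat_norm cco_nef CCo RAt RIn rat_move effr_add effr_smul)
open Pool.Agent.H89.ZN (red_lin)
open Pool.Agent.H39.RT (dot_sum)

variable {k K : Type} [Field k] [Field K] [Algebra k K] {X : Mod k K} {r : ℕ}
  {ν : Cart X →* Multiplicative (Fin r → ℤ)} {p : Fin r → ℝ}

/-- a point in the interior of its rational span is in every convex cone which contains the integral nef classes -/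
theorem ratin_cone_l (hX : IsVar X) (hν : NumR ν) {C : Set (Fin r → ℝ)} (h0 : (0 : Fin r → ℝ) ∈ C)
    (hadd : ∀ u ∈ C, ∀ v ∈ C, u + v ∈ C) (hsmul : ∀ c : ℝ, 0 ≤ c → ∀ u ∈ C, c • u ∈ C)
    (hC : ∀ d : Fin r → ℤ, rv d ∈ closure (AmpR ν) → (∃ a : ℝ, 0 < a ∧ a • rv d - p ∈ closure (AmpR ν)) → rv d ∈ C) (hp : RatIn ν p) : p ∈ C := by
  classical
  obtain ⟨e, he, hb⟩ := hp
  obtain ⟨m, q, c, hlin, hy⟩ := red_lin p
  obtain ⟨g, hg⟩ : ∃ g : Fin m → Fin r → ℤ, g = fun i j => c j i := ⟨_, rfl⟩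
  have hpg : p = ∑ i, q i • rv (g i) := by
    funext j
    rw [Finset.sum_apply, hy j]
    refine Finset.sum_congr rfl fun i _ => ?_
    rw [Pi.smul_apply, smul_eq_mul, hg]
    show (c j i : ℝ) * q i = q i * ((c j i : ℤ) : ℝ)
    ring
  have hφ : ∀ φ : Fin r → ℤ, rv φ ⬝ᵥ p = 0 → ∀ i, (∑ j, φ j * g i j : ℤ) = 0 := by
    intro φ h1
    rw [hpg, dot_sum] at h1
    have h2 := hlin (fun i => ∑ j, φ j * g i j) (by
      rw [← h1]
      exact Finset.sum_congr rfl fun i _ => mul_comm _ _)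
    exact fun i => congrFun h2 i
  obtain ⟨S, hS⟩ : ∃ S : ℝ, S = ∑ i, ‖rv (g i)‖ := ⟨_, rfl⟩
  have hS0 : 0 ≤ S := by rw [hS]; positivity
  rw [hpg]
  obtain ⟨e', he'⟩ : ∃ e', e' = e / 2 := ⟨_, rfl⟩
  have he'0 : 0 < e' := by rw [he']; positivity
  refine Pool.Agent.H32.TN.cone_dio (p := q) (C := {v : Fin m → ℝ | ∑ i, v i • rv (g i) ∈ C}) hlin one_pos
    ((S + 1) / e') ?_ ?_ ?_ ?_
  · show ∑ i, (0 : Fin m → ℝ) i • rv (g i) ∈ C
    simp only [Pi.zero_apply, zero_smul, Finset.sum_const_zero]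
    exact h0
  · intro u hu v hv
    show ∑ i, (u + v) i • rv (g i) ∈ C
    simp only [Pi.add_apply, add_smul, Finset.sum_add_distrib]
    exact hadd _ hu _ hv
  · intro a ha u hu
    show ∑ i, (a • u) i • rv (g i) ∈ C
    simp only [Pi.smul_apply, smul_eq_mul, mul_smul]
    rw [← Finset.smul_sum]
    exact hsmul a ha _ hu
  · intro n x hx hn
    show ∑ i, (n i : ℝ) • rv (g i) ∈ C
    have hxp : 0 < x := lt_of_lt_of_le (by positivity) hx
    obtain ⟨d, hd⟩ : ∃ d : Fin r → ℤ, d = ∑ i, n i • g i := ⟨_, rfl⟩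
    have hrd : rv d = ∑ i, (n i : ℝ) • rv (g i) := by
      funext j
      rw [hd]
      simp [rv, Finset.sum_apply]
    rw [← hrd]
    have hk : ∀ φ : Fin r → ℤ, rv φ ⬝ᵥ p = 0 → rv φ ⬝ᵥ rv d = 0 := by
      intro φ h1
      rw [hrd, dot_sum, Finset.sum_eq_zero]
      intro i _
      rw [hφ φ h1 i, Int.cast_zero, mul_zero]
    have hnorm : ‖x⁻¹ • rv d - p‖ < e' := by
      · have h2 : x⁻¹ • rv d - p = ∑ i, (x⁻¹ * (n i - x * q i)) • rv (g i) := by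
          rw [hrd, hpg, Finset.smul_sum, ← Finset.sum_sub_distrib]
          refine Finset.sum_congr rfl fun i _ => ?_
          rw [smul_smul, ← sub_smul]
          congr 1
          field_simp
        rw [h2]
        calc ‖∑ i, (x⁻¹ * (n i - x * q i)) • rv (g i)‖ ≤ ∑ i, ‖(x⁻¹ * (n i - x * q i)) • rv (g i)‖ := norm_sum_le _ _
          _ ≤ ∑ i, x⁻¹ * ‖rv (g i)‖ := Finset.sum_le_sum fun i _ => by
              rw [norm_smul, norm_mul, Real.norm_eq_abs, Real.norm_eq_abs, abs_of_pos (inv_pos.2 hxp)]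
              refine mul_le_mul_of_nonneg_right ?_ (norm_nonneg _)
              exact mul_le_of_le_one_right (inv_pos.2 hxp).le (hn i)
          _ = x⁻¹ * S := by rw [← Finset.mul_sum, hS]
          _ < e' := by
              rw [inv_mul_lt_iff₀ hxp]
              have h3 : S + 1 ≤ x * e' := by rwa [div_le_iff₀ he'0] at hx
              linarith
    have h1 : x⁻¹ • rv d ∈ closure (AmpR ν) := by
      refine hb _ (fun φ h1 => ?_) (by linarith)
      rw [dotProduct_smul, hk φ h1, smul_zero]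
    have h2 : x • (x⁻¹ • rv d) ∈ closure (AmpR ν) := by
      rw [cl_eq hX hν] at h1 ⊢
      exact cl_smul hxp.le h1
    rw [smul_smul, mul_inv_cancel₀ hxp.ne', one_smul] at h2
    refine hC d h2 ⟨2 * x⁻¹, by positivity, ?_⟩
    rw [mul_smul]
    refine hb _ (fun φ hφ => ?_) ?_
    · rw [dotProduct_sub, dotProduct_smul, dotProduct_smul, hk φ hφ, hφ, smul_zero, smul_zero, sub_zero]
    · have e1 : (2 : ℝ) • x⁻¹ • rv d - p - p = (2 : ℝ) • (x⁻¹ • rv d - p) := by module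
      rw [e1, norm_smul, Real.norm_eq_abs, abs_of_pos (by norm_num : (0 : ℝ) < 2)]
      linarith

/-- **the local theorem** -/
theorem loc_l {T : Cart X → Cart X → Cart X → ℝ} {l₀ : Cart X → ℝ} {c : ℝ} {TR : Tri3 r}
    {l : (Fin r → ℝ) →ₗ[ℝ] ℝ} {J : K → K → K → K} {κ : Cart X} [CharZero k] [IsAlgClosed k] [T0Space X.P]
    (hSm : Pool.Agent.H20.TU.SmP X) (h : Hyp X)
    (hr : RR T l₀ c) (hν : NumR ν) (hT : ∀ U V W, TR (cR ν U) (cR ν V) (cR ν W) = T U V W)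
    (hint : ∀ U V W, ∃ z : ℤ, TR (cR ν U) (cR ν V) (cR ν W) = z)
    (hl : ∀ D, l (cR ν D) = l₀ D) (hJ : Jac X J κ) (hκ : NumZ κ) (hnt : NumT X)
    (hp : p ∈ closure (AmpR ν)) (hp0 : p ≠ 0) (hC : Cp ν TR l p) : RatAt ν p ∧ Pool.Agent.H39.TZ.EffR ν p := by
  have hN := cco_nef h.var hν
  have hin : RatIn ν p := by
    obtain ⟨e, he, h1⟩ := in_l hSm h hr hν hT hl hp hp0 hC
    exact ⟨e, he, fun y hy hn => h1 y hy hn⟩
  have key : ∀ d : Fin r → ℤ, rv d ∈ closure (AmpR ν) → rv d ≠ 0 → (∃ a : ℝ, 0 < a ∧ a • rv d - p ∈ closure (AmpR ν)) →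
      RatAt ν (rv d) ∧ EffR ν (rv d) := by
    rintro d hd hd0 ⟨a, ha, hda⟩
    have hCd := cp_le h hr hν hT hp hd ha hda hC
    obtain ⟨D, hD⟩ := ci_surj hν d
    have hD' : rv d = cR ν D := by rw [← hD]
    rw [hD'] at hd hd0 hCd ⊢
    exact int_l hSm h hr hν hT hint hl hJ hκ hnt hd hd0 hCd
  refine ⟨rat_of_in_l hN hin hp0 fun d hd hd0 hda => (key d hd hd0 hda).1, ?_⟩
  refine ratin_cone_l h.var hν (C := {v | EffR ν v}) effr_zero (fun u hu v hv => effr_add hu hv)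
    (fun c hc u hu => effr_smul hc hu) (fun d hd hda => ?_) hin
  by_cases hd0 : rv d = 0
  · show EffR ν (rv d)
    rw [hd0]
    exact effr_zero
  · exact (key d hd hd0 hda).2

end Pool.Agent.H20.AB

namespace Pool.Agent.H20.AB

open AlgebraicGeometry Pool.Agent.H54.RV Pool.Agent.H83.TU Pool.Agent.H83.TK Pool.Agent.H20.TD
  Pool.Agent.H39.TZ Pool.Agent.H39.TQ Pool.Agent.H20.RT Pool.Agent.H32.TN Pool.Agent.H57.KM Pool.Agent.H39.RT
  Pool.Agent.H39.KN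
open Pool.Agent.H24.VP (RR chS)

/-- **THEOREM C**, local and global -/
theorem c_loc {Y : Scheme.{0}} [IsIntegral Y] (f : Y ⟶ Spec (.of ℂ)) [IsProper f] [Smooth f]
    (hd : Algebra.trdeg ℂ (FF f) = 3) (hA : ∃ D : Cart (mdl f), Ample D) {r : ℕ}
    (ν : Cart (mdl f) →* Multiplicative (Fin r → ℤ)) (hs : Function.Surjective ν) (hνk : ∀ D, ν D = 1 ↔ NumZ D)
    (hH : ∀ A : Cart (mdl f), Ample A → ∃ a b c : ℝ, 0 < b ∧
      ∃ n₀ : ℕ, ∀ n : ℕ, n₀ ≤ n → (h0 A n : ℝ) = a * (n : ℝ) ^ 3 + b * n + c) :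
    ∃ (T : (Fin r → ℝ) → (Fin r → ℝ) → (Fin r → ℝ) → ℝ) (l : (Fin r → ℝ) → ℝ) (c : ℝ), HilbF ν T l c ∧
      (∀ p ∈ closure (AmpR ν), 0 < l p → RatIn ν p ∨ ExcF ν T l p) ∧
      (KZero (mdl f) ∧ NumT (mdl f) → ∀ p ∈ closure (AmpR ν), p ≠ 0 →
        (∀ w ∈ closure (AmpR ν), w ≠ 0 → T (p + w) (p + w) (p + w) = 0 → 0 < l w) → RatAt ν p ∧ Pool.Agent.H39.TZ.EffR ν p) ∧
      ((∀ p ∈ closure (AmpR ν), p ≠ 0 → T p p p = 0 → 0 < l p) → NefC (mdl f) ⊆ NefP (mdl f) ∧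
        (KZero (mdl f) ∧ NumT (mdl f) →
          NefC (mdl f) ⊆ EffC (mdl f) ∧ RatPolyC (NefC (mdl f)) ∧ Q1Y f)) ∧
      ThrR ν T := by
  have h := Pool.Agent.H20.TU.hyp_smooth f hd hA
  have hSm := Pool.Agent.H20.TU.smP_mdl f hd
  have := Pool.Agent.H32.TK.t0_mdl f
  have hν : NumR ν := ⟨hs, hνk⟩
  obtain ⟨b₀, l₀, c, T, l, hT₀, hT, hl, hHR⟩ := exists_hilbR h hν hH
  have hr := hT₀.rr
  obtain ⟨b, hb'⟩ := exists_b h.var h.amp hν (nt_of h hr hν hT (nak_r h hr hν hT))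
  have hM : ∀ p ∈ closure (AmpR ν), 0 < l p → RatIn ν p ∨ ExcF ν (pl T) l p := fun p hp hlp => by
    rcases Pool.Agent.H89.RS.thmRS hSm h hr hν hT hl hp hlp with ⟨e, he, h1⟩ | h1
    · exact Or.inl ⟨e, he, fun y hy hn => h1 y hy hn⟩
    · exact Or.inr (of_exc h1)
  have hL : KZero (mdl f) ∧ NumT (mdl f) → ∀ p ∈ closure (AmpR ν), p ≠ 0 → Cp ν T l p → RatAt ν p ∧ Pool.Agent.H39.TZ.EffR ν p := by
    rintro ⟨⟨J, κ, hJ, hκ⟩, hnt⟩ p hp hp0 hC
    exact loc_l hSm h hr hν hT hHR.int hl hJ hκ hnt hp hp0 hC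
  refine ⟨pl T, l, c, hilbF_of hHR, hM, fun hQ p hp hp0 hC => hL hQ p hp hp0 hC, fun hpos => ?_, b₀, hT, fun A D hA => ?_⟩
  · have hC : ∀ p ∈ closure (AmpR ν), Cp ν T l p := fun p hp w hw hw0 h0 =>
      hpos w hw hw0 (cub_zero h hr hν hT hp hw h0).2.2.2
    refine ⟨?_, fun hQ => ?_⟩
    · have := fd_of_basis h.var b
      intro x hx
      obtain ⟨v, rfl⟩ := (pt_bij h.var b).2 x
      rw [← pt_nef h.var hb'] at hx
      by_cases h0 : v = 0
      · rw [h0, Pool.Agent.H83.DC.pt_zero]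
        exact np_zero h.var h.amp
      · obtain ⟨e, he, h1⟩ := in_l hSm h hr hν hT hl hx h0 (hC v hx)
        exact ratin_np h.var h.amp hν hb' ⟨e, he, fun y hy hn => h1 y hy hn⟩
    · have hNE : NefC (mdl f) ⊆ EffC (mdl f) := nefc_effc h.var hb' fun p hp => by
        by_cases h0 : p = 0
        · rw [h0]
          exact effr_zero
        · exact (hL hQ p hp h0 (hC p hp)).2
      obtain ⟨F, hF'⟩ := poly_loc h hr hν fun p hp h0 => (hL hQ p hp h0 (hC p hp)).1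
      obtain ⟨h1, -, h2⟩ := Pool.Agent.H39.TP.q1_poly f h.amp b F (by
        rw [pt_amp h.var hb']
        exact hF') fun D hD => hNE hD
      exact ⟨hNE, h1, h2⟩
  · exact thr_all h hT₀ ν (fun D hD => (hν.ker D).1 hD) A D hA

end Pool.Agent.H20.AB

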