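import Pool.Agent.H20.AB.Wf

/-!
# [H20 AB Np] `Nef = Nef^+` iff the classes with `p ^ 3 = 0` and `c_2 . p = 0` are in `Nef^+` (MP_e49dc9_ag)

* `HulR ν p`: `p` is a nonnegative combination of integral nef classes (`p` is in `Nef^+`).
* `np_all`: if all nef `p` with `T p p p = 0`, `l p = 0` are `HulR`, then all nef `p` are `HulR`, and `Nef ⊆ Nef^+`.
-/

set_option autoImplicit false

namespace Pool.Agent.H20.AB

open Pool.Agent.H54.RV Pool.Agent.H83.TU Pool.Agent.H83.TK Pool.Agent.H20.TD Pool.Agent.H20.TP Pool.Agent.H20.RT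
  Pool.Agent.H39.KN
open Pool.Agent.H24.VP (RR)
open Pool.Agent.H39.TZ (RatAt EffR cube_nn loc_poly)
open Pool.Agent.H39.RT (RatIn ratin_cone)

section gen

variable {k K : Type} [Field k] [Field K] [Algebra k K] {X : Mod k K} {r : ℕ}
  {ν : Cart X →* Multiplicative (Fin r → ℤ)} {T : Cart X → Cart X → Cart X → ℝ} {l₀ : Cart X → ℝ} {c : ℝ} {TR : Tri3 r}
  {l : (Fin r → ℝ) →ₗ[ℝ] ℝ}

/-- `p` is a combination of nef classes of divisors with coefficients `≥ 0` -/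
def HulR (ν : Cart X →* Multiplicative (Fin r → ℤ)) (p : Fin r → ℝ) : Prop :=
  ∃ (m : ℕ) (a : Fin m → ℝ) (D : Fin m → Cart X), (∀ i, 0 ≤ a i ∧ cR ν (D i) ∈ closure (AmpR ν)) ∧
    p = ∑ i, a i • cR ν (D i)

theorem hul_zero : HulR ν 0 := ⟨0, fun _ => 0, fun _ => 1, fun i => i.elim0, by simp⟩

theorem hul_add {u v : Fin r → ℝ} (hu : HulR ν u) (hv : HulR ν v) : HulR ν (u + v) := by
  obtain ⟨m, a, D, h1, rfl⟩ := hu
  obtain ⟨n, b, E, h2, rfl⟩ := hv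
  refine ⟨m + n, Fin.append a b, Fin.append D E, fun i => ?_, ?_⟩
  · refine Fin.addCases (fun j => ?_) (fun j => ?_) i
    · simpa using h1 j
    · simpa using h2 j
  · rw [Fin.sum_univ_add]
    simp

theorem hul_smul {c : ℝ} (hc : 0 ≤ c) {u : Fin r → ℝ} (hu : HulR ν u) : HulR ν (c • u) := by
  obtain ⟨m, a, D, h1, rfl⟩ := hu
  refine ⟨m, fun i => c * a i, D, fun i => ⟨mul_nonneg hc (h1 i).1, (h1 i).2⟩, ?_⟩
  rw [Finset.smul_sum]
  exact Finset.sum_congr rfl fun i _ => smul_smul _ _ _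

theorem hul_cl {D : Cart X} (hD : cR ν D ∈ closure (AmpR ν)) : HulR ν (cR ν D) :=
  ⟨1, fun _ => 1, fun _ => D, fun _ => ⟨zero_le_one, hD⟩, by simp⟩

theorem hul_of_in (hX : IsVar X) (hν : NumR ν) {p : Fin r → ℝ} (hp : RatIn ν p) : HulR ν p := by
  refine ratin_cone hX hν (C := {v | HulR ν v}) hul_zero (fun u hu v hv => hul_add hu hv)
    (fun c hc u hu => hul_smul hc hu) (fun d hd => ?_) hp
  obtain ⟨D, hD⟩ := ci_surj hν d
  have hD' : rv d = cR ν D := by rw [← hD]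
  show HulR ν (rv d)
  rw [hD'] at hd ⊢
  exact hul_cl hd

theorem hul_all [CharZero k] [IsAlgClosed k] [T0Space X.P] (hSm : Pool.Agent.H20.TU.SmP X) (h : Hyp X)
    (hr : RR T l₀ c) (hν : NumR ν) (hT : ∀ U V W, TR (cR ν U) (cR ν V) (cR ν W) = T U V W)
    (hl : ∀ D, l (cR ν D) = l₀ D) (hln : ∀ q ∈ closure (AmpR ν), 0 ≤ l q)
    (hZ : ∀ q ∈ closure (AmpR ν), TR q q q = 0 → l q = 0 → HulR ν q) :
    ∀ p ∈ closure (AmpR ν), HulR ν p := by
  intro p hp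
  rcases (cube_nn h hr hT hp).lt_or_eq with h3 | h3
  · obtain ⟨e, he, h1⟩ := in_of_at h.var hν hp (loc_poly h hr hν hT hp h3)
    exact hul_of_in h.var hν ⟨e, he, fun y hy hn => h1 y hy hn⟩
  · rcases (hln p hp).lt_or_eq with hlp | hlp
    · rcases Pool.Agent.H89.RS.thmRS hSm h hr hν hT hl hp hlp with
        ⟨e, he, h1⟩ | ⟨s, q, G, hs, hq, hq0, hG, hG0, hpq, hqq, hGG, hlq⟩
      · exact hul_of_in h.var hν ⟨e, he, fun y hy hn => h1 y hy hn⟩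
      · rw [hpq]
        exact hul_add (hZ q hq (by rw [hqq]; rfl) (le_antisymm hlq (hln q hq))) (hul_smul hs.le (hul_cl hG))
    · exact hZ p hp h3.symm hlp.symm

end gen

end Pool.Agent.H20.AB

namespace Pool.Agent.H20.AB

open AlgebraicGeometry Pool.Agent.H54.RV Pool.Agent.H83.TU Pool.Agent.H83.TK Pool.Agent.H20.TD
  Pool.Agent.H39.TZ Pool.Agent.H39.TQ Pool.Agent.H20.RT Pool.Agent.H32.TN Pool.Agent.H57.KM Pool.Agent.H39.RT
  Pool.Agent.H39.KN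
open Pool.Agent.H24.VP (RR chS)

/-- `Nef = Nef^+` iff the nef classes with `p ^ 3 = 0` and `c_2 . p = 0` are in `Nef^+` -/
theorem np_all {Y : Scheme.{0}} [IsIntegral Y] (f : Y ⟶ Spec (.of ℂ)) [IsProper f] [Smooth f]
    (hd : Algebra.trdeg ℂ (FF f) = 3) (hA : ∃ D : Cart (mdl f), Ample D) {r : ℕ}
    (ν : Cart (mdl f) →* Multiplicative (Fin r → ℤ)) (hs : Function.Surjective ν) (hνk : ∀ D, ν D = 1 ↔ NumZ D)
    (hH : ∀ A : Cart (mdl f), Ample A → ∃ a b c : ℝ, 0 < b ∧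
      ∃ n₀ : ℕ, ∀ n : ℕ, n₀ ≤ n → (h0 A n : ℝ) = a * (n : ℝ) ^ 3 + b * n + c) :
    ∃ (T : (Fin r → ℝ) → (Fin r → ℝ) → (Fin r → ℝ) → ℝ) (l : (Fin r → ℝ) → ℝ) (c : ℝ), HilbF ν T l c ∧
      (∀ p ∈ closure (AmpR ν), 0 < l p → RatIn ν p ∨ ExcF ν T l p) ∧
      ((∀ p ∈ closure (AmpR ν), T p p p = 0 → l p = 0 → HulR ν p) →
        (∀ p ∈ closure (AmpR ν), HulR ν p) ∧ NefC (mdl f) ⊆ NefP (mdl f)) := by
  have h := Pool.Agent.H20.TU.hyp_smooth f hd hA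
  have hSm := Pool.Agent.H20.TU.smP_mdl f hd
  have := Pool.Agent.H32.TK.t0_mdl f
  have hν : NumR ν := ⟨hs, hνk⟩
  obtain ⟨b₀, l₀, c, T, l, hT₀, hT, hl, hHR⟩ := exists_hilbR h hν hH
  have hr := hT₀.rr
  obtain ⟨b, hb'⟩ := exists_b h.var h.amp hν (nt_of h hr hν hT (nak_r h hr hν hT))
  have hF := hilbF_of hHR
  have hM : ∀ p ∈ closure (AmpR ν), 0 < l p → RatIn ν p ∨ ExcF ν (pl T) l p := fun p hp hlp => by
    rcases Pool.Agent.H89.RS.thmRS hSm h hr hν hT hl hp hlp with ⟨e, he, h1⟩ | h1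
    · exact Or.inl ⟨e, he, fun y hy hn => h1 y hy hn⟩
    · exact Or.inr (of_exc h1)
  refine ⟨pl T, l, c, hF, hM, fun hZ => ?_⟩
  have hln : ∀ q ∈ closure (AmpR ν), 0 ≤ l q := by
    refine closure_minimal (t := {q | 0 ≤ l q}) ?_ (isClosed_le continuous_const l.continuous_of_finiteDimensional)
    rintro _ ⟨m, c', D, hc', hD, rfl⟩
    show 0 ≤ l _
    rw [map_sum]
    refine Finset.sum_nonneg fun i _ => ?_
    rw [map_smul]
    exact mul_nonneg (hc' i).le (hF.pos (D i) (hD i)).le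
  have hall := hul_all hSm h hr hν hT hl hln hZ
  refine ⟨hall, ?_⟩
  have := fd_of_basis h.var b
  intro x hx
  obtain ⟨v, rfl⟩ := (pt_bij h.var b).2 x
  rw [← pt_nef h.var hb'] at hx
  obtain ⟨m, a, D, h1, rfl⟩ := hall v hx
  rw [Pool.Agent.H83.DC.pt_sum]
  have h2 : ∑ i, pt b (a i • Pool.Agent.H20.TP.cR ν (D i)) = ∑ i, a i • pt b (Pool.Agent.H20.TP.cR ν (D i)) :=
    Finset.sum_congr rfl fun i _ => Pool.Agent.H54.RV.pt_smul b _ _
  rw [h2]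
  refine Pool.Agent.H54.RV.np_sum h.var h.amp _ _ (fun i => (h1 i).1) fun i _ => ?_
  have h3 := (h1 i).2
  rw [pt_nef h.var hb'] at h3
  refine subset_convexHull ℝ _ ⟨h3, ?_⟩
  have h4 : Pool.Agent.H54.RV.cl (D i) = pt b (Pool.Agent.H20.TP.cR ν (D i)) := hb' (D i)
  rw [← h4]
  exact Pool.Agent.H54.RV.ratC_cl (D i)

end Pool.Agent.H20.AB
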