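import Pool.Agent.H20.AB.Wk

/-!
# [H20 AB Wf] THEOREM C (MP_e49dc9_ag) with the weaker hypothesis `l > 0` on the nonzero nef classes `p` with `p ^ 3 = 0`

`c_w`: the final statement.
-/

set_option autoImplicit false

namespace Pool.Agent.H20.AB

open Pool.Agent.H54.RV Pool.Agent.H83.TU Pool.Agent.H83.TK Pool.Agent.H20.TD Pool.Agent.H20.TP Pool.Agent.H20.RT
  Pool.Agent.H39.KN
open Pool.Agent.H24.VP (RR)
open Pool.Agent.H43.WR (Jac)
open Pool.Agent.H39.TZ (RatAt EffR cube_nn loc_poly)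
open Pool.Agent.H39.RT (RatIn rat_norm cco_nef)

section gen

variable {k K : Type} [Field k] [Field K] [Algebra k K] {X : Mod k K} {r : ℕ}
  {ν : Cart X →* Multiplicative (Fin r → ℤ)} {T : Cart X → Cart X → Cart X → ℝ} {l₀ : Cart X → ℝ} {c : ℝ} {TR : Tri3 r}
  {l : (Fin r → ℝ) →ₗ[ℝ] ℝ} {J : K → K → K → K} {κ A F : Cart X}

/-- a rational polyhedral cone is a neighbourhood in the rational hull -/
theorem in_of_at (hX : IsVar X) (hν : NumR ν) {p : Fin r → ℝ} (hp : p ∈ closure (AmpR ν)) (h : RatAt ν p) :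
    ∃ e : ℝ, 0 < e ∧ ∀ y ∈ Vp p, ‖y - p‖ < e → y ∈ closure (AmpR ν) := by
  obtain ⟨F, e, he, h1, -, h3⟩ := rat_norm (cco_nef hX hν) hp h
  exact ⟨e, he, fun y hy hn => h3 y hn fun φ hφ => (hy φ (h1 φ hφ)).ge⟩

theorem gro_red_w [CharZero k] [IsAlgClosed k] [T0Space X.P] (h : Hyp X)
    (hr : RR T l₀ c) (hν : NumR ν) (hT : ∀ U V W, TR (cR ν U) (cR ν V) (cR ν W) = T U V W)
    (hl : ∀ D, l (cR ν D) = l₀ D) (hpos : ∀ q ∈ closure (AmpR ν), q ≠ 0 → TR q q q = 0 → 0 < l q)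
    (hF : ∀ P : Cart X, (∀ B : Cart X, Ample B → Ample (B * P)) → T P P P = 0 → (∀ A : Cart X, Ample A → 0 < T P P A) →
      0 < l₀ P → (¬ ∃ c₀ : ℝ, 0 < c₀ ∧ ∃ n₀ : ℕ, ∀ n : ℕ, n₀ ≤ n → c₀ * (n : ℝ) ^ 2 ≤ h0 (P ^ n) 1) → False) :
    Gro ν TR := by
  intro P hP h3 hPP
  by_contra hng
  have hcl : closure (AmpR ν) = closure (CC ν) := cl_eq h.var hν
  have hP' : cR ν P ∈ closure (AmpR ν) := by rwa [hcl]
  refine hF P ?_ (by rw [← hT]; exact h3) (fun A hA => ?_) ?_ hng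
  · have h1 : rv (ci ν P) ∈ closure (AmpR ν) := hP'
    exact Pool.Agent.H39.TZ.nf_of_cl h.var hν h1
  · rw [← hT]
    have hAC : cR ν A ∈ closure (CC ν) := subset_closure (cc_amp h.var hν hA)
    rcases (tr_nn h hr hν hT hP hP hAC).eq_or_lt with h1 | h1
    · exact absurd (pq_zero h hr hν hT hA hP hP h1.symm) hPP
    · exact h1
  · rw [← hl]
    refine hpos _ hP' (fun h0 => hPP ?_) h3
    rw [h0, map_zero]

theorem gro_all_w [CharZero k] [IsAlgClosed k] [T0Space X.P] (h : Hyp X)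
    (hr : RR T l₀ c) (hν : NumR ν) (hT : ∀ U V W, TR (cR ν U) (cR ν V) (cR ν W) = T U V W)
    (hl : ∀ D, l (cR ν D) = l₀ D) (hJ : Jac X J κ) (hκ : NumZ κ) (hnt : NumT X)
    (hpos : ∀ q ∈ closure (AmpR ν), q ≠ 0 → TR q q q = 0 → 0 < l q) : Gro ν TR :=
  gro_red_w h hr hν hT hl hpos fun _ hP h3 hPP hlP hng => asm_false h hr hJ hκ (hnt κ hκ) hP h3 hPP hlP hng

/-- all nonzero nef classes are interior points of the nef cone of their rational hull -/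
theorem in_all_w [CharZero k] [IsAlgClosed k] [T0Space X.P] (hSm : Pool.Agent.H20.TU.SmP X) (h : Hyp X)
    (hr : RR T l₀ c) (hν : NumR ν) (hT : ∀ U V W, TR (cR ν U) (cR ν V) (cR ν W) = T U V W)
    (hl : ∀ D, l (cR ν D) = l₀ D) (hpos : ∀ q ∈ closure (AmpR ν), q ≠ 0 → TR q q q = 0 → 0 < l q) :
    ∀ q ∈ closure (AmpR ν), q ≠ 0 → ∃ e : ℝ, 0 < e ∧ ∀ y ∈ Vp q, ‖y - q‖ < e → y ∈ closure (AmpR ν) := by
  intro q hq hq0
  rcases (cube_nn h hr hT hq).lt_or_eq with h3 | h3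
  · exact in_of_at h.var hν hq (loc_poly h hr hν hT hq h3)
  · rcases Pool.Agent.H89.RS.thmRS hSm h hr hν hT hl hq (hpos q hq hq0 h3.symm) with
      h1 | ⟨s, q', G, hs, hq', hq'0, -, -, -, hqq, -, hlq⟩
    · exact h1
    · exact absurd (hpos q' hq' hq'0 (by rw [hqq]; rfl)) (not_lt.2 hlq)

theorem rat_all_w [CharZero k] [IsAlgClosed k] [T0Space X.P] (hSm : Pool.Agent.H20.TU.SmP X) (h : Hyp X)
    (hr : RR T l₀ c) (hν : NumR ν) (hT : ∀ U V W, TR (cR ν U) (cR ν V) (cR ν W) = T U V W)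
    (hl : ∀ D, l (cR ν D) = l₀ D) (hJ : Jac X J κ) (hκ : NumZ κ) (hnt : NumT X)
    (hpos : ∀ q ∈ closure (AmpR ν), q ≠ 0 → TR q q q = 0 → 0 < l q) :
    ∀ D : Cart X, cR ν D ∈ closure (AmpR ν) → cR ν D ≠ 0 → RatAt ν (cR ν D) ∧
        (TR (cR ν D) (cR ν D) = 0 → EffR ν (cR ν D)) := by
  have hgro := gro_all_w h hr hν hT hl hJ hκ hnt hpos
  have hNs := ns_all hSm h hr hν hT hl hJ hκ
  obtain ⟨A, hA⟩ := h.amp
  have hcl : closure (AmpR ν) = closure (CC ν) := cl_eq h.var hν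
  have hin := in_all_w hSm h hr hν hT hl hpos
  have f : Pool.Agent.H60.ZC.Fr ν T l₀ c TR l A := ⟨h, hr, hν, hT, hl, hA⟩
  have hrat : ∀ q ∈ closure (CC ν), TR q q ≠ 0 → RatAt ν q := by
    intro q hq hqq
    rcases (tr_nn h hr hν hT hq hq hq).lt_or_eq with h3 | h3
    · exact loc_poly h hr hν hT (by rwa [hcl]) h3
    · refine rat_ell_w f (fun p hp hp0 hp3 => hpos p (by rwa [hcl]) hp0 hp3) (fun p hp hp0 _ => ?_) hgro hq h3.symm hqq
      rw [← hcl] at hp ⊢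
      exact hin p hp hp0
  intro D hD hD0
  by_cases hDD : TR (cR ν D) (cR ν D) = 0
  · have h1 := rat_iso hSm h hr hν hT hl hJ hκ hnt hNs hrat hD (hpos _ hD hD0 (by rw [hDD]; rfl)) hDD
    exact ⟨h1.1, fun _ => h1.2⟩
  · exact ⟨hrat _ (by rwa [← hcl]) hDD, fun h1 => absurd h1 hDD⟩

end gen

end Pool.Agent.H20.AB

namespace Pool.Agent.H20.AB

open AlgebraicGeometry Pool.Agent.H54.RV Pool.Agent.H83.TU Pool.Agent.H83.TK Pool.Agent.H20.TD Pool.Agent.H20.TP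
  Pool.Agent.H39.TZ Pool.Agent.H39.TQ Pool.Agent.H20.RT Pool.Agent.H32.TN Pool.Agent.H57.KM Pool.Agent.H39.RT
  Pool.Agent.H39.KN
open Pool.Agent.H24.VP (RR chS)

section gen

variable {k K : Type} [Field k] [Field K] [Algebra k K] {X : Mod k K} {r : ℕ}
  {ν : Cart X →* Multiplicative (Fin r → ℤ)} {T : Cart X → Cart X → Cart X → ℝ} {l₀ : Cart X → ℝ} {c : ℝ}
  {TR : Tri3 r} {l : (Fin r → ℝ) →ₗ[ℝ] ℝ}

/-- the integral nef classes -/
theorem fib_int_w [CharZero k] [IsAlgClosed k] [T0Space X.P] (h : Hyp X) (hr : RR T l₀ c) (hν : NumR ν)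
    (hT : ∀ U V W, TR (Pool.Agent.H20.TP.cR ν U) (Pool.Agent.H20.TP.cR ν V) (Pool.Agent.H20.TP.cR ν W) = T U V W)
    (hint : ∀ U V W, ∃ z : ℤ,
      TR (Pool.Agent.H20.TP.cR ν U) (Pool.Agent.H20.TP.cR ν V) (Pool.Agent.H20.TP.cR ν W) = z)
    (hl : ∀ D, l (Pool.Agent.H20.TP.cR ν D) = l₀ D)
    (hlp : ∀ p ∈ closure (AmpR ν), p ≠ 0 → TR p p p = 0 → 0 < l p)
    (hF : FibP ν (pl TR)) (d : Fin r → ℤ) (hd : rv d ∈ closure (AmpR ν)) :
    Pool.Agent.H39.TZ.EffR ν (rv d) ∧ (rv d ≠ 0 → RAt (closure (AmpR ν)) (rv d)) := by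
  obtain ⟨D, hD⟩ := ci_surj hν d
  have hD' : rv d = Pool.Agent.H20.TP.cR ν D := by
    rw [← hD]
  rw [hD'] at hd ⊢
  by_cases h0 : Pool.Agent.H20.TP.cR ν D = 0
  · rw [h0]
    exact ⟨effr_zero, fun h1 => absurd rfl h1⟩
  rcases (cube_nn h hr hT hd).lt_or_eq with h3 | h3
  · exact ⟨effr_of_big h hr hν hT hd h3, fun _ => loc_poly h hr hν hT hd h3⟩
  · obtain ⟨h4, h5⟩ := hF D hd h0 h3.symm
    refine ⟨?_, fun _ => h4⟩
    by_cases hpp : TR (Pool.Agent.H20.TP.cR ν D) (Pool.Agent.H20.TP.cR ν D) = 0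
    · exact h5 (pl_zero.2 hpp)
    · rcases z_irr h hν hr hT hl hd (hlp _ hd h0 h3.symm) hpp with h6 | ⟨-, -, h6⟩
      · exact h6
      · exact absurd ⟨TR (Pool.Agent.H20.TP.cR ν D) (Pool.Agent.H20.TP.cR ν D), 1, fun E => hint D D E,
          fun v => (one_mul _).symm⟩ h6

end gen

/-- **THEOREM C** -/
theorem c_w {Y : Scheme.{0}} [IsIntegral Y] (f : Y ⟶ Spec (.of ℂ)) [IsProper f] [Smooth f]
    (hd : Algebra.trdeg ℂ (FF f) = 3) (hA : ∃ D : Cart (mdl f), Ample D) {r : ℕ}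
    (ν : Cart (mdl f) →* Multiplicative (Fin r → ℤ)) (hs : Function.Surjective ν) (hνk : ∀ D, ν D = 1 ↔ NumZ D)
    (hH : ∀ A : Cart (mdl f), Ample A → ∃ a b c : ℝ, 0 < b ∧
      ∃ n₀ : ℕ, ∀ n : ℕ, n₀ ≤ n → (h0 A n : ℝ) = a * (n : ℝ) ^ 3 + b * n + c) :
    ∃ (T : (Fin r → ℝ) → (Fin r → ℝ) → (Fin r → ℝ) → ℝ) (l : (Fin r → ℝ) → ℝ) (c : ℝ), HilbF ν T l c ∧
      (∀ p ∈ closure (AmpR ν), 0 < l p → RatIn ν p ∨ ExcF ν T l p) ∧
      ((∀ p ∈ closure (AmpR ν), p ≠ 0 → T p p p = 0 → 0 < l p) → NefC (mdl f) ⊆ NefP (mdl f) ∧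
        (KZero (mdl f) ∧ NumT (mdl f) →
          NefC (mdl f) ⊆ EffC (mdl f) ∧ RatPolyC (NefC (mdl f)) ∧ Q1Y f)) ∧
      ThrR ν T := by
  have h := Pool.Agent.H20.TU.hyp_smooth f hd hA
  have hSm := Pool.Agent.H20.TU.smP_mdl f hd
  have := Pool.Agent.H32.TK.t0_mdl f
  have hν : NumR ν := ⟨hs, hνk⟩
  obtain ⟨b₀, l₀, c, T, l, hT₀, hT, hl, hHR⟩ := exists_hilbR h hν hH
  have hr := hT₀.rr
  obtain ⟨b, hb'⟩ := exists_b h.var h.amp hν (nt_of h hr hν hT (nak_r h hr hν hT))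
  have hM : ∀ p ∈ closure (AmpR ν), 0 < l p → RatIn ν p ∨ ExcF ν (pl T) l p := fun p hp hlp => by
    rcases Pool.Agent.H89.RS.thmRS hSm h hr hν hT hl hp hlp with ⟨e, he, h1⟩ | h1
    · exact Or.inl ⟨e, he, fun y hy hn => h1 y hy hn⟩
    · exact Or.inr (of_exc h1)
  have hM' : (∀ p ∈ closure (AmpR ν), p ≠ 0 → T p p p = 0 → 0 < l p) → ∀ p ∈ closure (AmpR ν), p ≠ 0 → RatIn ν p := by
    intro hpos p hp hp0
    obtain ⟨e, he, h1⟩ := in_all_w hSm h hr hν hT hl hpos p hp hp0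
    exact ⟨e, he, fun y hy hn => h1 y hy hn⟩
  refine ⟨pl T, l, c, hilbF_of hHR, hM, fun hpos => ⟨?_, fun hQ => ?_⟩, b₀, hT, fun A D hA => ?_⟩
  · have := fd_of_basis h.var b
    intro x hx
    obtain ⟨v, rfl⟩ := (pt_bij h.var b).2 x
    rw [← pt_nef h.var hb'] at hx
    by_cases h0 : v = 0
    · rw [h0, Pool.Agent.H83.DC.pt_zero]
      exact np_zero h.var h.amp
    · exact ratin_np h.var h.amp hν hb' (hM' hpos v hx h0)
  · obtain ⟨⟨J, κ, hJ, hκ⟩, hnt⟩ := hQ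
    have hin := hM' hpos
    have hF : FibP ν (pl T) := fun D hD hD0 _ => by
      obtain ⟨h1, h2⟩ := rat_all_w hSm h hr hν hT hl hJ hκ hnt hpos D hD hD0
      exact ⟨h1, fun h3 => h2 (pl_zero.1 h3)⟩
    have hint := fib_int_w h hr hν hT hHR.int hl hpos hF
    have hN := cco_nef h.var hν
    have hNE : NefC (mdl f) ⊆ EffC (mdl f) := nefc_effc h.var hb' fun p hp => by
      by_cases h0 : p = 0
      · rw [h0]
        exact effr_zero
      · exact ratin_cone h.var hν (C := {v | Pool.Agent.H39.TZ.EffR ν v}) effr_zero (fun u hu v hv => effr_add hu hv)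
          (fun c hc u hu => effr_smul hc hu) (fun d hd => (hint d hd).1) (hin p hp h0)
    obtain ⟨F, hF'⟩ := poly_loc h hr hν fun p hp h0 =>
      rat_of_in hN (hin p hp h0) h0 fun d hd hd0 => (hint d hd).2 hd0
    obtain ⟨h1, -, h2⟩ := Pool.Agent.H39.TP.q1_poly f h.amp b F (by
      rw [pt_amp h.var hb']
      exact hF') fun D hD => hNE hD
    exact ⟨hNE, h1, h2⟩
  · exact thr_all h hT₀ ν (fun D hD => (hν.ker D).1 hD) A D hA

end Pool.Agent.H20.AB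

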