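import Pool.Agent.H60.ZC.Fin2
import Pool.Agent.H20.AB.Fin

/-!
# [H20 AB Wk] THEOREM C (MP_e49dc9_ag) with the weaker hypothesis `l > 0` on the nonzero nef classes `p` with `p ^ 3 = 0`

* `rat_ell_w`: `rat_ell` (helper60, H60/ZC/Fin2, the same proof): the hypotheses are used only on the face of `q₀`, where all cubes are `0`.
* `in_of_at`: `RatAt` gives `RatIn`.
-/

set_option autoImplicit false

namespace Pool.Agent.H20.AB

open Pool.Agent.H60.ZC


open Pool.Agent.H54.RV Pool.Agent.H83.TU Pool.Agent.H83.TK Pool.Agent.H20.TD Pool.Agent.H20.TP Pool.Agent.H20.RT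
open Pool.Agent.H24.VP (RR)

variable {k K : Type} [Field k] [Field K] [Algebra k K] {X : Mod k K} {r : ℕ}
  {ν : Cart X →* Multiplicative (Fin r → ℤ)} {T : Cart X → Cart X → Cart X → ℝ} {l : Cart X → ℝ} {c : ℝ} {TR : Tri3 r}
  {L : (Fin r → ℝ) →ₗ[ℝ] ℝ} {A : Cart X}

variable {q₀ : Fin r → ℝ}

private theorem cl_add (hX : IsVar X) (hν : NumR ν) {x y : Fin r → ℝ} (hx : x ∈ closure (CC ν))
    (hy : y ∈ closure (CC ν)) : x + y ∈ closure (CC ν) :=
  map_mem_closure₂ continuous_add hx hy fun _ ha _ hb => cc_add hX hν ha hb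

private theorem cl_sum (hX : IsVar X) (hν : NumR ν) {ι : Type*} (s : Finset ι) (g : ι → Fin r → ℝ)
    (h0 : (0 : Fin r → ℝ) ∈ closure (CC ν)) (h : ∀ i ∈ s, g i ∈ closure (CC ν)) : ∑ i ∈ s, g i ∈ closure (CC ν) := by
  classical
  induction s using Finset.induction_on with
  | empty => simpa using h0
  | insert a s ha ih =>
    rw [Finset.sum_insert ha]
    exact cl_add hX hν (h a (Finset.mem_insert_self _ _)) (ih fun i hi => h i (Finset.mem_insert_of_mem hi))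

/-- a point in the relative interior of the face -/
private theorem ri_pt (hX : IsVar X) (hν : NumR ν) (hq : q₀ ∈ closure (CC ν)) (h3 : TR q₀ q₀ q₀ = 0) :
    ∃ s : Fin r → ℝ, s ∈ Ph ν TR q₀ ∧ ∀ q ∈ Ph ν TR q₀, ∃ M : ℝ, 0 ≤ M ∧ M • (q₀ + s) - q ∈ closure (CC ν) := by
  classical
  have h0 : (0 : Fin r → ℝ) ∈ closure (CC ν) := by
    have := cl_smul (le_refl (0 : ℝ)) hq
    rwa [zero_smul] at this
  obtain ⟨b, hb1, hb2, hb3⟩ := exists_linearIndependent ℝ (Ph ν TR q₀)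
  have hbf : b.Finite := hb3.setFinite
  obtain ⟨B, hB⟩ : ∃ B : Finset (Fin r → ℝ), (B : Set (Fin r → ℝ)) = b := ⟨hbf.toFinset, by simp⟩
  have hBP : ∀ x ∈ B, x ∈ Ph ν TR q₀ := fun x hx => hb1 (by rw [← hB]; exact hx)
  refine ⟨∑ x ∈ B, x, ⟨cl_sum hX hν B _ h0 fun x hx => (hBP x hx).1, ?_⟩, fun q hqP => ?_⟩
  · rw [map_sum]
    exact Finset.sum_eq_zero fun x hx => (hBP x hx).2
  · have h1 : q ∈ Submodule.span ℝ (B : Set (Fin r → ℝ)) := by
      rw [hB, hb2]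
      exact Submodule.subset_span hqP
    obtain ⟨a, -, ha⟩ := Submodule.mem_span_finset.1 h1
    refine ⟨∑ x ∈ B, |a x|, Finset.sum_nonneg fun _ _ => abs_nonneg _, ?_⟩
    have e : (∑ x ∈ B, |a x|) • (q₀ + ∑ x ∈ B, x) - q =
        (∑ x ∈ B, |a x|) • q₀ + ∑ x ∈ B, ((∑ x ∈ B, |a x|) - a x) • x := by
      rw [← ha, smul_add, Finset.smul_sum, add_sub_assoc, ← Finset.sum_sub_distrib]
      congr 1
      refine Finset.sum_congr rfl fun x _ => ?_
      rw [sub_smul]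
    rw [e]
    refine cl_add hX hν (cl_smul (Finset.sum_nonneg fun _ _ => abs_nonneg _) hq) (cl_sum hX hν B _ h0 fun x hx => ?_)
    refine cl_smul ?_ (hBP x hx).1
    have h2 : |a x| ≤ ∑ x ∈ B, |a x| := Finset.single_le_sum (f := fun x => |a x|) (fun _ _ => abs_nonneg _) hx
    have h4 := le_abs_self (a x)
    linarith

theorem rat_ell_w [CharZero k] [IsAlgClosed k] [T0Space X.P] (f : Fr ν T l c TR L A)
    (hL : ∀ q ∈ closure (CC ν), q ≠ 0 → TR q q q = 0 → 0 < L q)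
    (hri : ∀ q ∈ closure (CC ν), q ≠ 0 → TR q q q = 0 → ∃ e : ℝ, 0 < e ∧ ∀ y ∈ Vp q, ‖y - q‖ < e → y ∈ closure (CC ν))
    (hgro : ∀ P : Cart X, cR ν P ∈ closure (CC ν) → TR (cR ν P) (cR ν P) (cR ν P) = 0 → TR (cR ν P) (cR ν P) ≠ 0 →
      ∃ c₀ : ℝ, 0 < c₀ ∧ ∃ n₀ : ℕ, ∀ n : ℕ, n₀ ≤ n → c₀ * (n : ℝ) ^ 2 ≤ h0 (P ^ n) 1)
    (hq : q₀ ∈ closure (CC ν)) (h3 : TR q₀ q₀ q₀ = 0) (hqq : TR q₀ q₀ ≠ 0) : Pool.Agent.H39.TZ.RatAt ν q₀ := by
  classical
  have hX := f.h.var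
  have hν := f.hν
  obtain ⟨s, hs, htop⟩ := ri_pt (ν := ν) (TR := TR) hX hν hq h3
  have hA := ppa f hq hqq
  have hAC : cR ν A ∈ closure (CC ν) := subset_closure (cc_amp hX hν f.hA)
  -- `T (q₀ + d) (q₀ + d) A` is positive
  have hpos : ∀ d ∈ closure (CC ν), 0 < TR (q₀ + d) (q₀ + d) (cR ν A) := by
    intro d hd
    have e : TR (q₀ + d) (q₀ + d) (cR ν A) =
        TR q₀ q₀ (cR ν A) + TR q₀ d (cR ν A) + TR d q₀ (cR ν A) + TR d d (cR ν A) := by
      simp only [map_add, LinearMap.add_apply]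
      ring
    rw [e]
    have a1 := tr_nn f.h f.hr hν f.hT hq hd hAC
    have a2 := tr_nn f.h f.hr hν f.hT hd hq hAC
    have a3 := tr_nn f.h f.hr hν f.hT hd hd hAC
    linarith
  obtain ⟨q₁, hq₁⟩ : ∃ q₁, q₁ = q₀ + s := ⟨_, rfl⟩
  have hq₁C : q₁ ∈ closure (CC ν) := by
    rw [hq₁]
    exact cl_add hX hν hq hs.1
  have hq₁z : TR q₀ q₀ q₁ = 0 := by
    rw [hq₁, map_add, h3, hs.2, add_zero]
  have hq₁0 : q₁ ≠ 0 := by
    intro h0
    have h1 := hpos s hs.1
    rw [← hq₁, h0] at h1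
    simp at h1
  have hcube : ∀ q ∈ Ph ν TR q₀, TR q q q = 0 := fun q hq' => by
    rw [form f hq h3 hqq (Submodule.subset_span hq') (Submodule.subset_span hq'), hq'.2, mul_zero]
  obtain ⟨e, he, hnear⟩ := hri q₁ hq₁C hq₁0 (hcube _ ⟨hq₁C, hq₁z⟩)
  -- `z₀ = 0` on `Vp q₁`
  have hz : ∀ w ∈ Vp q₁, TR q₀ q₀ w = 0 := by
    intro w hw
    obtain ⟨t, ht⟩ : ∃ t, t = e / (2 * (‖w‖ + 1)) := ⟨_, rfl⟩
    have hw0 : 0 < ‖w‖ + 1 := by positivity
    have ht0 : 0 < t := by rw [ht]; positivity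
    have ht1 : t * ‖w‖ < e := by
      rw [ht, div_mul_eq_mul_div, div_lt_iff₀ (by positivity)]
      nlinarith [norm_nonneg w]
    have key : ∀ u : ℝ, |u| = t → 0 ≤ u * TR q₀ q₀ w := by
      intro u hu
      have h1 : q₁ + u • w ∈ closure (CC ν) := by
        refine hnear _ (Submodule.add_mem _ (self_vp q₁) (Submodule.smul_mem _ _ hw)) ?_
        rw [add_sub_cancel_left, norm_smul, Real.norm_eq_abs, hu]
        exact ht1
      have h2 := tr_nn f.h f.hr hν f.hT hq hq h1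
      rw [map_add, map_smul, hq₁z, zero_add, smul_eq_mul] at h2
      exact h2
    have h1 := key t (abs_of_pos ht0)
    have h2 := key (-t) (by rw [abs_neg, abs_of_pos ht0])
    have h4 : 0 ≤ TR q₀ q₀ w := nonneg_of_mul_nonneg_right h1 ht0
    have h5 : TR q₀ q₀ w ≤ 0 := by
      by_contra hcon
      push Not at hcon
      have := mul_pos ht0 hcon
      linarith
    exact le_antisymm h5 h4
  -- an integral point of `Vp q₁`
  obtain ⟨x, d, hx, hd, hdx⟩ := vp_dio q₁ (ε := e / 4) (by positivity) 1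
  have hx0 : 0 < x := by linarith
  obtain ⟨P, hP⟩ := ci_surj hν d
  obtain ⟨p, hp⟩ : ∃ p, p = cR ν P := ⟨_, rfl⟩
  have hpd : p = rv d := by rw [hp, ← hP]
  rw [← hpd] at hd hdx
  have hpC : p ∈ closure (CC ν) := by
    have h1 : x⁻¹ • p ∈ closure (CC ν) := by
      refine hnear _ (Submodule.smul_mem _ _ hd) ?_
      have e1 : x⁻¹ • p - q₁ = x⁻¹ • (p - x • q₁) := by
        rw [smul_sub, smul_smul, inv_mul_cancel₀ hx0.ne', one_smul]
      rw [e1, norm_smul, Real.norm_eq_abs, abs_of_pos (inv_pos.2 hx0)]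
      have h2 : x⁻¹ ≤ 1 := inv_le_one_of_one_le₀ hx
      have h4 : x⁻¹ * ‖p - x • q₁‖ ≤ 1 * (e / 4) := mul_le_mul h2 hdx (norm_nonneg _) zero_le_one
      linarith
    have h2 := cl_smul hx0.le h1
    rwa [smul_smul, mul_inv_cancel₀ hx0.ne', one_smul] at h2
  have hpz : TR q₀ q₀ p = 0 := hz p hd
  have hpP : p ∈ Ph ν TR q₀ := ⟨hpC, hpz⟩
  -- `q₁ ≤ (2 / x) p`
  have hdiff : (2 / x) • p - q₁ ∈ closure (CC ν) := by
    have e1 : (2 / x) • p - q₁ - q₁ = (2 / x) • (p - x • q₁) := by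
      rw [smul_sub, smul_smul, div_mul_cancel₀ _ hx0.ne', two_smul]
      abel
    refine hnear _ (Submodule.sub_mem _ (Submodule.smul_mem _ _ hd) (self_vp q₁)) ?_
    rw [e1, norm_smul, Real.norm_eq_abs, abs_of_pos (by positivity)]
    have h2 : 2 / x ≤ 2 := by
      rw [div_le_iff₀ hx0]
      linarith
    have h4 : 2 / x * ‖p - x • q₁‖ ≤ 2 * (e / 4) := mul_le_mul h2 hdx (norm_nonneg _) zero_le_two
    linarith
  have hppA : 0 < TR p p (cR ν A) := by
    have h1 := hpos (s + ((2 / x) • p - q₁)) (cl_add hX hν hs.1 hdiff)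
    have e1 : q₀ + (s + ((2 / x) • p - q₁)) = (2 / x) • p := by
      rw [hq₁]
      abel
    rw [e1] at h1
    simp only [map_smul, LinearMap.smul_apply, smul_eq_mul] at h1
    have h2 : 0 < 2 / x := by positivity
    by_contra hcon
    push Not at hcon
    have h4 : 2 / x * (2 / x * TR p p (cR ν A)) ≤ 0 := by
      have h5 : 0 ≤ (2 / x) * (2 / x) := by positivity
      nlinarith
    linarith
  have hform : ∀ v, TR p p v = ip ν TR A q₀ p p * TR q₀ q₀ v :=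
    form f hq h3 hqq (Submodule.subset_span hpP) (Submodule.subset_span hpP)
  have hip : 0 < ip ν TR A q₀ p p := by
    unfold ip
    exact div_pos hppA hA
  have hPh : Ph ν TR p = Ph ν TR q₀ := by
    ext q
    unfold Ph
    rw [Set.mem_ofPred_eq, Set.mem_ofPred_eq, hform, mul_eq_zero]
    constructor
    · rintro ⟨h1, h2⟩
      exact ⟨h1, h2.resolve_left hip.ne'⟩
    · rintro ⟨h1, h2⟩
      exact ⟨h1, Or.inr h2⟩
  have hsq : TR p p ≠ 0 := by
    intro h0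
    rw [h0] at hppA
    simp at hppA
  have hc3 : TR p p p = 0 := by rw [hform, hpz, mul_zero]
  have hE : Ell ν TR L P := by
    refine ⟨?_, ?_, ?_, ?_, ?_, ?_, ?_⟩
    · rw [← hp]
      exact hpC
    · rw [← hp]
      exact hc3
    · rw [← hp]
      exact hsq
    · rw [← hp, hPh]
      intro q hqP
      obtain ⟨M, hM, h1⟩ := htop q hqP
      refine ⟨M * (2 / x), by positivity, ?_⟩
      have e1 : (M * (2 / x)) • p - q = M • ((2 / x) • p - q₁) + (M • (q₀ + s) - q) := by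
        rw [smul_sub, smul_smul, ← hq₁]
        abel
      rw [e1]
      exact cl_add hX hν (cl_smul hM hdiff) h1
    · intro q hqP hq0
      rw [← hp, hPh] at hqP
      exact hL q hqP.1 hq0 (hcube q hqP)
    · intro q hqP hq0
      rw [← hp, hPh] at hqP
      exact hri q hqP.1 hq0 (hcube q hqP)
    · refine hgro P ?_ ?_ ?_
      · rw [← hp]
        exact hpC
      · rw [← hp]
        exact hc3
      · rw [← hp]
        exact hsq
  refine loc_ell f hE ?_ hqq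
  rw [← hp, hPh]
  exact ⟨hq, h3⟩

end Pool.Agent.H20.AB
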